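import Pool.Agent.Helper31.MA2.NPs
import Pool.Agent.K7.H83.MA.Ape

/-! Vectors orthogonal to the strongly nearly periodic ones have vanishing averages along
progressions (this follows `Pool.Agent.K7.H83.MA.Ape`). -/

set_option autoImplicit false
set_option linter.unusedSectionVars false

namespace Pool.Agent.Helper31.MA2

open Finset Filter Topology
open scoped InnerProductSpace
open Pool.Agent.K7.H83.MA
open Pool.Agent.Y868.VR (cm cm_prime cm_one cm_mul cm_bdd)

variable {H : Type*} [NormedAddCommGroup H] [InnerProductSpace ℂ H] [CompleteSpace H]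

section

variable {r : ℕ} (c : ℕ → Fin r) (Q : ℕ)

theorem ape_A1 (hQ : 0 < Q) {u : ℕ → H →L[ℂ] H} (hu : FG c u) {F : H}
    (hF : ∀ y, NPs u y → ⟪y, F⟫_ℂ = 0) (ψ : AddChar (Additive (ZMod Q)ˣ) ℂ) :
    Tendsto (fun N : ℕ => ((N : ℂ)⁻¹ • ∑ n ∈ Ioc 0 N, cm (bu c Q ψ) n • u n) F) atTop (𝓝 0) := by
  classical
  have : NeZero Q := ⟨hQ.ne'⟩
  obtain ⟨π, hπ⟩ := exists_rep c
  set B : ℕ → H →L[ℂ] H := fun N => (N : ℂ)⁻¹ • ∑ n ∈ Ioc 0 N, cm (bu c Q ψ) n • u n with hB
  have hble := bu_le c Q hQ ψ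
  have hbl : ∀ N, ‖B N‖ ≤ 1 := by
    intro N
    refine ContinuousLinearMap.opNorm_le_bound _ zero_le_one fun x => ?_
    rw [hB]
    simp only [smul_apply, _root_.sum_apply]
    rw [norm_smul, norm_inv, Complex.norm_natCast, one_mul]
    have h1 := sum_unit_le c (cm (bu c Q ψ)) (cm_bdd hble) hu (Ioc 0 N) (N := N)
      (fun n hn => mem_Ioc.1 hn) x
    rcases Nat.eq_zero_or_pos N with h0 | h0
    · subst h0; simp
    · rw [inv_mul_le_iff₀ (by exact_mod_cast h0)]
      exact h1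
  set V : Finset ℂ := insert 0 (Finset.univ.image fun g : Additive (ZMod Q)ˣ => ψ g) with hVdef
  have hV : ∀ p : ℕ, p.Prime → bu c Q ψ p ∈ V := by
    intro p _
    rw [hVdef, Finset.mem_insert]
    unfold bu
    split_ifs
    · exact Or.inl rfl
    · right
      exact Finset.mem_image.2 ⟨_, Finset.mem_univ _, rfl⟩
  have hnc : ∀ θ : ℂ, ‖θ‖ ≤ 1 → ∀ q, 0 < q → (∀ w : Fin r → Circle, θ * ev c q w ≠ 1 →
      ¬ Summable (fun p : Nat.Primes => if bu c Q ψ p * w (c p) ≠ 1 then 1 / ((p : ℕ) : ℝ) else 0))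
      → ∀ x, Tendsto (fun N => B N ((1 - θ • u q) x)) atTop (𝓝 0) := by
    intro θ hθ q hq hN x
    rw [Metric.tendsto_atTop]
    intro ε hε
    have hx0 := norm_nonneg x
    obtain ⟨N₀, h0⟩ := op_halasz c (bu c Q ψ) hble V hV θ hθ hq hN hu (ε / (2 * (‖x‖ + 1)))
      (by positivity)
    refine ⟨max N₀ 1, fun N hN' => ?_⟩
    have hN1 : 0 < N := (le_max_right _ _).trans hN'
    have h1 := h0 N ((le_max_left _ _).trans hN')
    rw [dist_zero_right]
    have h2 : B N ((1 - θ • u q) x) = (N : ℂ)⁻¹ •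
        (∑ n ∈ Ioc 0 N, cm (bu c Q ψ) n • (u n * (1 - θ • u q))) x := by
      rw [hB]
      simp only [smul_apply, _root_.sum_apply,
        mul_apply_eq_comp]
    rw [h2, norm_smul, norm_inv, Complex.norm_natCast]
    have h3 := (∑ n ∈ Ioc 0 N, cm (bu c Q ψ) n • (u n * (1 - θ • u q))).le_opNorm x
    have hNpos : (0 : ℝ) < N := by exact_mod_cast hN1
    calc (N : ℝ)⁻¹ * ‖(∑ n ∈ Ioc 0 N, cm (bu c Q ψ) n • (u n * (1 - θ • u q))) x‖
        ≤ (N : ℝ)⁻¹ * ((ε / (2 * (‖x‖ + 1)) * N) * ‖x‖) := by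
          refine mul_le_mul_of_nonneg_left (h3.trans ?_) (by positivity)
          exact mul_le_mul_of_nonneg_right h1 hx0
      _ = ε / 2 * (‖x‖ / (‖x‖ + 1)) := by field_simp
      _ ≤ ε / 2 * 1 := by
          refine mul_le_mul_of_nonneg_left ?_ (by positivity)
          rw [div_le_one (by positivity)]; linarith
      _ < ε := by linarith
  have hsummable : ∀ w : Fin r → Circle, ∀ i, Summable (fun p : Nat.Primes =>
      if bu c Q ψ p * w (c p) ≠ 1 then 1 / ((p : ℕ) : ℝ) else 0) → Gd c Q ψ i (w i) := by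
    intro w i hs
    have h1 : Spa (fun p => bu c Q ψ p * w (c p) ≠ 1) := by
      unfold Spa
      refine hs.congr fun p => ?_
      by_cases h3 : bu c Q ψ p * w (c p) ≠ 1
      · rw [if_pos h3, if_pos h3]
      · rw [if_neg h3, if_neg h3]
    refine h1.mono fun p hp => ?_
    rw [hp.1]; exact hp.2
  by_cases hcase : ∀ i, Big c i → ∃ z : Circle, Gd c Q ψ i z
  · choose! z hz using hcase
    refine kerlem B 1 hbl (fun i => if Big c i then 1 - (star (z i : ℂ)) • u (π i) else 0)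
      (fun i => ?_) (fun i x => ?_) F (fun y hy => ?_)
    · split_ifs
      · exact normal_one_sub (hu.uni _ (hπ.pos i)) _
      · infer_instance
    · split_ifs with hi
      · refine hnc (star (z i : ℂ)) (by rw [norm_star, Circle.norm_coe]) (π i) (hπ.pos i) ?_ x
        intro w hw hs
        apply hw
        have h1 := hsummable w i hs
        have h2 : (w i : ℂ) = z i := Gd_uniq c Q hi h1 (hz i hi)
        have h3 : ev c (π i) w = w i := by
          unfold ev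
          rw [cm_prime _ (hπ.prime i hi), hπ.col i hi]
        rw [h3, h2]
        have h4 : star (z i : ℂ) * (z i : ℂ) = ((‖(z i : ℂ)‖ ^ 2 : ℝ) : ℂ) := by
          rw [Complex.star_def, ← Complex.normSq_eq_conj_mul_self, Complex.normSq_eq_norm_sq]
        rw [h4, Circle.norm_coe]; simp
      · simp only [zero_apply, map_zero]
        exact tendsto_const_nhds
    · apply hF
      refine eig_NPs c Q hQ hu hπ ψ (fun i => (z i : ℂ)) (fun i hi => hz i hi) (fun i hi => ?_)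
      have h1 := hy i
      beta_reduce at h1
      rw [if_pos hi] at h1
      have h2 : y = star (z i : ℂ) • u (π i) y := by
        have h3 : y - star (z i : ℂ) • u (π i) y = 0 := h1
        exact sub_eq_zero.1 h3
      have h4 : (z i : ℂ) * star (z i : ℂ) = 1 := by
        rw [Complex.star_def, Complex.mul_conj, Complex.normSq_eq_norm_sq, Circle.norm_coe]; simp
      calc u (π i) y = ((z i : ℂ) * star (z i : ℂ)) • u (π i) y := by rw [h4, one_smul]
        _ = (z i : ℂ) • (star (z i : ℂ) • u (π i) y) := by rw [mul_smul]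
        _ = (z i : ℂ) • y := by rw [← h2]
  · push Not at hcase
    obtain ⟨i, hi, hz⟩ := hcase
    have h1 := hnc 0 (by simp) 1 one_pos (fun w _ hs => hz (w i) (hsummable w i hs)) F
    refine h1.congr fun N => ?_
    rw [zero_smul, sub_zero]; rfl

theorem ape_B1 (hQ : 0 < Q) {u : ℕ → H →L[ℂ] H} (hu : FG c u) {F : H}
    (hF : ∀ y, NPs u y → ⟪y, F⟫_ℂ = 0) (v : (ZMod Q)ˣ) :
    Tendsto (fun N : ℕ => (N : ℂ)⁻¹ • ∑ n ∈ labu c Q N 1 v, u n F) atTop (𝓝 0) := by
  classical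
  have : NeZero Q := ⟨hQ.ne'⟩
  have hcardc : (Fintype.card (Additive (ZMod Q)ˣ) : ℂ) ≠ 0 := by
    exact_mod_cast Fintype.card_ne_zero
  have h1 : ∀ N : ℕ, (N : ℂ)⁻¹ • ∑ n ∈ labu c Q N 1 v, u n F =
      (Fintype.card (Additive (ZMod Q)ˣ) : ℂ)⁻¹ • ∑ ψ : AddChar (Additive (ZMod Q)ˣ) ℂ,
        ψ (-(Additive.ofMul v)) • ((N : ℂ)⁻¹ • ∑ n ∈ Ioc 0 N, cm (bu c Q ψ) n • u n) F := by
    intro N
    have h2 : ∀ n ∈ Ioc 0 N, (if sp c Q n = 1 ∧ un c Q n = v then u n F else 0) =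
        (Fintype.card (Additive (ZMod Q)ˣ) : ℂ)⁻¹ • ∑ ψ : AddChar (Additive (ZMod Q)ˣ) ℂ,
          (ψ (-(Additive.ofMul v)) * cm (bu c Q ψ) n) • u n F := by
      intro n hn
      rw [mem_Ioc] at hn
      rw [← Finset.sum_smul]
      have h3 : ∑ ψ : AddChar (Additive (ZMod Q)ˣ) ℂ, ψ (-(Additive.ofMul v)) * cm (bu c Q ψ) n =
          if sp c Q n = 1 then ∑ ψ : AddChar (Additive (ZMod Q)ˣ) ℂ,
            ψ (Additive.ofMul (un c Q n) - Additive.ofMul v) else 0 := by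
        split_ifs with h2
        · refine Finset.sum_congr rfl fun ψ _ => ?_
          rw [cm_bu c Q ψ hn.1, if_pos h2, sub_eq_add_neg, AddChar.map_add_eq_mul, mul_comm]
        · refine Finset.sum_eq_zero fun ψ _ => ?_
          rw [cm_bu c Q ψ hn.1, if_neg h2, mul_zero]
      rw [h3, AddChar.sum_apply_eq_ite]
      by_cases h4 : sp c Q n = 1
      · by_cases h5 : un c Q n = v
        · rw [if_pos ⟨h4, h5⟩, if_pos h4, if_pos (by rw [h5, sub_self]), smul_smul,
            inv_mul_cancel₀ hcardc, one_smul]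
        · rw [if_neg (fun h6 => h5 h6.2), if_pos h4, if_neg (fun h6 => h5 ?_), zero_smul,
            smul_zero]
          exact Additive.ofMul.injective (sub_eq_zero.1 h6)
      · rw [if_neg (fun h6 => h4 h6.1), if_neg h4, zero_smul, smul_zero]
    unfold labu
    rw [Finset.sum_filter, Finset.sum_congr rfl h2, ← Finset.smul_sum, Finset.sum_comm,
      smul_comm]
    congr 1
    rw [Finset.smul_sum]
    refine Finset.sum_congr rfl fun ψ _ => ?_
    rw [smul_apply, _root_.sum_apply, smul_comm]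
    congr 1
    rw [Finset.smul_sum]
    refine Finset.sum_congr rfl fun n _ => ?_
    rw [smul_apply, mul_smul]
  simp only [h1]
  have h2 : Tendsto (fun N : ℕ => ∑ ψ : AddChar (Additive (ZMod Q)ˣ) ℂ,
        ψ (-(Additive.ofMul v)) • ((N : ℂ)⁻¹ • ∑ n ∈ Ioc 0 N, cm (bu c Q ψ) n • u n) F) atTop
        (𝓝 (∑ ψ : AddChar (Additive (ZMod Q)ˣ) ℂ, ψ (-(Additive.ofMul v)) • (0 : H))) :=
    tendsto_finsetSum _ fun ψ _ => (ape_A1 c Q hQ hu hF ψ).const_smul _
  have h3 := h2.const_smul ((Fintype.card (Additive (ZMod Q)ˣ) : ℂ)⁻¹)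
  simpa only [smul_zero, Finset.sum_const_zero] using h3

theorem ape_B1' (hQ : 0 < Q) {u : ℕ → H →L[ℂ] H} (hu : FG c u) {F : H}
    (hF : ∀ y, NPs u y → ⟪y, F⟫_ℂ = 0) (s₀ : ℕ) (v : (ZMod Q)ˣ) :
    Tendsto (fun N : ℕ => (N : ℂ)⁻¹ • ∑ n ∈ labu c Q N s₀ v, u n F) atTop (𝓝 0) := by
  classical
  by_cases hne : ∃ n, 0 < n ∧ sp c Q n = s₀
  · obtain ⟨n, hn, hns⟩ := hne
    have hs0 : 0 < s₀ := by rw [← hns]; exact sp_pos c Q hn
    have hs1 : sp c Q s₀ = s₀ := by rw [← hns]; exact sp_sp c Q hn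
    have hs2 : un c Q s₀ = 1 := by rw [← hns]; exact un_sp c Q hn
    have h1 := (ape_B1 c Q hQ hu hF v).comp (Nat.tendsto_div_const_atTop hs0.ne')
    rw [tendsto_zero_iff_norm_tendsto_zero] at h1 ⊢
    refine squeeze_zero (fun _ => norm_nonneg _) (fun N => ?_) h1
    rw [labu_sum c Q _ hs0 hs1 hs2]
    have h2 : ∑ n ∈ labu c Q (N / s₀) 1 v, u (s₀ * n) F =
        u s₀ (∑ n ∈ labu c Q (N / s₀) 1 v, u n F) := by
      rw [map_sum]
      refine Finset.sum_congr rfl fun n hn => ?_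
      rw [mem_labu] at hn
      rw [hu.mul _ _ hs0 hn.1.1]; rfl
    rw [h2]
    simp only [Function.comp_apply]
    rw [norm_smul, norm_smul, uni_norm (hu.uni s₀ hs0), norm_inv, norm_inv,
      Complex.norm_natCast, Complex.norm_natCast]
    rcases Nat.eq_zero_or_pos (N / s₀) with h0 | h0
    · rw [h0]
      have : labu c Q 0 1 v = ∅ := by
        rw [Finset.eq_empty_iff_forall_notMem]
        intro n hn
        rw [mem_labu] at hn
        omega
      rw [this]; simp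
    · refine mul_le_mul_of_nonneg_right ?_ (norm_nonneg _)
      refine inv_anti₀ (by exact_mod_cast h0) ?_
      exact_mod_cast Nat.div_le_self N s₀
  · have : ∀ N, labu c Q N s₀ v = ∅ := by
      intro N
      rw [Finset.eq_empty_iff_forall_notMem]
      intro n hn
      rw [mem_labu] at hn
      exact hne ⟨n, hn.1.1, hn.2.1⟩
    simp only [this, Finset.sum_empty, smul_zero]
    exact tendsto_const_nhds

end

/-- vectors orthogonal to the nearly periodic ones have vanishing averages -/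
theorem ape_of_orth1 {r : ℕ} (c : ℕ → Fin r) {u : ℕ → H →L[ℂ] H} (hu : FG c u) {F : H}
    (hF : ∀ y, NPs u y → ⟪y, F⟫_ℂ = 0) : Ape u F := by
  classical
  intro Q hQ a
  have : NeZero Q := ⟨hQ.ne'⟩
  rw [Metric.tendsto_atTop]
  intro ε hε
  have hF0 := norm_nonneg F
  obtain ⟨M, hM0, hME, hMc⟩ := good (spa_Sp c Q hQ) (ε / (2 * (‖F‖ + 1))) (by positivity)
  set T : Finset (ℕ × (ZMod Q)ˣ) := (M.divisors ×ˢ (Finset.univ : Finset (ZMod Q)ˣ)).filter
    (fun x => (x.1 : ZMod Q) * ((x.2 : (ZMod Q)ˣ) : ZMod Q) = a) with hT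
  have h1 : Tendsto (fun N : ℕ => ∑ x ∈ T, (N : ℂ)⁻¹ • ∑ n ∈ labu c Q N x.1 x.2, u n F) atTop
      (𝓝 0) := by
    rw [← Finset.sum_const_zero (s := T)]
    exact tendsto_finsetSum _ fun x _ => ape_B1' c Q hQ hu hF x.1 x.2
  obtain ⟨N₀, h0⟩ := (Metric.tendsto_atTop.1 h1) (ε / 2) (by positivity)
  refine ⟨max N₀ 1, fun N hN => ?_⟩
  have hN1 : 0 < N := (le_max_right _ _).trans hN
  have hNpos : (0 : ℝ) < N := by exact_mod_cast hN1
  have h2 := h0 N ((le_max_left _ _).trans hN)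
  rw [dist_zero_right] at h2 ⊢
  have hsplit : ∑ k ∈ (Ioc 0 N).filter (fun k : ℕ => (k : ZMod Q) = a), u k F =
      (∑ x ∈ T, ∑ n ∈ labu c Q N x.1 x.2, u n F) +
      ∑ k ∈ (Ioc 0 N).filter (fun k : ℕ => (k : ZMod Q) = a ∧ ¬ sp c Q k ∣ M), u k F := by
    rw [← Finset.sum_filter_add_sum_filter_not ((Ioc 0 N).filter (fun k : ℕ => (k : ZMod Q) = a))
      (fun k => sp c Q k ∣ M), Finset.filter_filter, Finset.filter_filter]
    congr 1
    have hmap : ∀ k ∈ (Ioc 0 N).filter (fun k : ℕ => (k : ZMod Q) = a ∧ sp c Q k ∣ M),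
        (sp c Q k, un c Q k) ∈ T := by
      intro k hk
      rw [mem_filter, mem_Ioc] at hk
      rw [hT, mem_filter, mem_product, Nat.mem_divisors]
      refine ⟨⟨⟨hk.2.2, hM0.ne'⟩, Finset.mem_univ _⟩, ?_⟩
      rw [← res_eq c Q hk.1.1]; exact hk.2.1
    rw [← Finset.sum_fiberwise_of_maps_to hmap]
    refine Finset.sum_congr rfl fun x hx => Finset.sum_congr ?_ fun _ _ => rfl
    ext k
    rw [mem_filter, mem_filter, mem_labu, mem_Ioc]
    rw [hT, mem_filter, mem_product, Nat.mem_divisors] at hx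
    constructor
    · rintro ⟨⟨h3, _, _⟩, h4⟩
      exact ⟨h3, congrArg Prod.fst h4, congrArg Prod.snd h4⟩
    · rintro ⟨h3, h4, h5⟩
      refine ⟨⟨h3, ?_, ?_⟩, Prod.ext h4 h5⟩
      · rw [res_eq c Q h3.1, h4, h5]; exact hx.2
      · rw [h4]; exact hx.1.1.1
  rw [hsplit, smul_add, Finset.smul_sum]
  refine (norm_add_le _ _).trans_lt ?_
  have h3 : ‖(N : ℂ)⁻¹ • ∑ k ∈ (Ioc 0 N).filter
      (fun k : ℕ => (k : ZMod Q) = a ∧ ¬ sp c Q k ∣ M), u k F‖ ≤ ε / 2 := by
    rw [norm_smul, norm_inv, Complex.norm_natCast]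
    have h4 : ‖∑ k ∈ (Ioc 0 N).filter
        (fun k : ℕ => (k : ZMod Q) = a ∧ ¬ sp c Q k ∣ M), u k F‖ ≤
        (ε / (2 * (‖F‖ + 1)) * N) * ‖F‖ := by
      refine (norm_sum_le _ _).trans ?_
      have h5 : ∀ k ∈ (Ioc 0 N).filter (fun k : ℕ => (k : ZMod Q) = a ∧ ¬ sp c Q k ∣ M),
          ‖u k F‖ ≤ ‖F‖ := by
        intro k hk
        rw [mem_filter, mem_Ioc] at hk
        exact (uni_norm (hu.uni k hk.1.1) F).le
      refine (Finset.sum_le_sum h5).trans ?_
      rw [Finset.sum_const, nsmul_eq_mul]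
      refine mul_le_mul_of_nonneg_right ((Nat.cast_le.2 (Finset.card_le_card ?_)).trans (hMc N)) hF0
      intro k hk
      rw [mem_filter] at hk ⊢
      exact ⟨hk.1, hk.2.2⟩
    calc (N : ℝ)⁻¹ * _ ≤ (N : ℝ)⁻¹ * ((ε / (2 * (‖F‖ + 1)) * N) * ‖F‖) :=
          mul_le_mul_of_nonneg_left h4 (by positivity)
      _ = ε / 2 * (‖F‖ / (‖F‖ + 1)) := by field_simp
      _ ≤ ε / 2 * 1 := by
          refine mul_le_mul_of_nonneg_left ?_ (by positivity)
          rw [div_le_one (by positivity)]; linarith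
      _ = ε / 2 := by ring
  linarith

end Pool.Agent.Helper31.MA2
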