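import Pool.Agent.K7.H83.MA.Lab3

/-! Counting integers in a residue class with a prime factor in a sparse set. -/

set_option autoImplicit false

namespace Pool.Agent.Helper31.MA2

open Finset Filter Topology
open Pool.Agent.K7.H83.MA

/-- the number of elements of a residue class -/
theorem card_class_le (N v D : ℕ) :
    (((Ioc 0 N).filter fun k => k ≡ v [MOD D]).card : ℝ) ≤ N / D + 1 := by
  have h1 : ((Ioc 0 N).filter fun k => k ≡ v [MOD D]).card ≤ (Finset.range (N / D + 1)).card := by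
    refine Finset.card_le_card_of_injOn (fun k => k / D) (fun k hk => ?_) (fun a ha b hb hab => ?_)
    · rw [Finset.mem_coe, mem_filter, mem_Ioc] at hk
      rw [Finset.mem_coe, Finset.mem_range]
      exact Nat.lt_succ_of_le (Nat.div_le_div_right hk.1.2)
    · rw [Finset.mem_coe, mem_filter] at ha hb
      have h2 : a % D = b % D := ha.2.trans hb.2.symm
      have h3 : a / D = b / D := hab
      rw [← Nat.div_add_mod a D, ← Nat.div_add_mod b D, h2, h3]
  rw [Finset.card_range] at h1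
  calc (((Ioc 0 N).filter fun k => k ≡ v [MOD D]).card : ℝ) ≤ ((N / D + 1 : ℕ) : ℝ) := by
        exact_mod_cast h1
    _ ≤ N / D + 1 := by
        push_cast
        have := Nat.cast_div_le (α := ℝ) (m := N) (n := D)
        linarith

theorem card_class_ge (N v D : ℕ) (hD : 0 < D) :
    (N : ℝ) / D - 1 ≤ (((Ioc 0 N).filter fun k => k ≡ v [MOD D]).card : ℝ) := by
  -- the residue in `(0, D]`
  obtain ⟨v', hv'0, hv'D, hv'⟩ : ∃ v' : ℕ, 0 < v' ∧ v' ≤ D ∧ v' ≡ v [MOD D] := by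
    rcases Nat.eq_zero_or_pos (v % D) with h | h
    · refine ⟨D, hD, le_rfl, ?_⟩
      unfold Nat.ModEq
      rw [Nat.mod_self, h]
    · exact ⟨v % D, h, (Nat.mod_lt _ hD).le, Nat.mod_modEq v D⟩
  have h1 : (Finset.range (N / D)).card ≤ ((Ioc 0 N).filter fun k => k ≡ v [MOD D]).card := by
    refine Finset.card_le_card_of_injOn (fun j => v' + D * j) (fun j hj => ?_)
      (fun a _ b _ hab => ?_)
    · rw [Finset.mem_coe, Finset.mem_range] at hj
      rw [Finset.mem_coe, mem_filter, mem_Ioc]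
      refine ⟨⟨by positivity, ?_⟩, ?_⟩
      · have h2 : D * (j + 1) ≤ D * (N / D) := Nat.mul_le_mul_left D hj
        have h3 := Nat.mul_div_le N D
        rw [Nat.mul_add, Nat.mul_one] at h2
        change v' + D * j ≤ N
        omega
      · have : v' + D * j ≡ v' + 0 [MOD D] :=
          Nat.ModEq.add_left _ ((Nat.modEq_zero_iff_dvd).2 (Dvd.intro _ rfl))
        rw [Nat.add_zero] at this
        exact this.trans hv'
    · have h2 : v' + D * a = v' + D * b := hab
      have h3 : D * a = D * b := Nat.add_left_cancel h2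
      exact Nat.eq_of_mul_eq_mul_left hD h3
  rw [Finset.card_range] at h1
  have h2 : (N : ℝ) / D < ((N / D : ℕ) : ℝ) + 1 := by
    rw [div_lt_iff₀ (by exact_mod_cast hD)]
    have h3 := Nat.lt_div_mul_add hD (a := N)
    have h4 : (N : ℝ) < ((N / D * D + D : ℕ) : ℝ) := by exact_mod_cast h3
    push_cast at h4
    linarith
  have h5 : ((N / D : ℕ) : ℝ) ≤ (((Ioc 0 N).filter fun k => k ≡ v [MOD D]).card : ℝ) := by
    exact_mod_cast h1
  linarith

open scoped Classical in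
/-- tails of the sums of reciprocals of a sparse set of primes -/
theorem tail {E : ℕ → Prop} (hE : Spa E) (ε : ℝ) (hε : 0 < ε) :
    ∃ P : ℕ, ∀ F : Finset ℕ, (∀ p ∈ F, p.Prime ∧ E p ∧ P < p) → ∑ p ∈ F, 1 / (p : ℝ) ≤ ε := by
  classical
  unfold Spa at hE
  obtain ⟨S, hS⟩ : ∃ S : Finset Nat.Primes, ∀ T : Finset Nat.Primes, Disjoint T S →
      ∑ p ∈ T, (if E p then 1 / ((p : ℕ) : ℝ) else 0) ≤ ε := by
    have h1 := (summable_iff_vanishing_norm.1 hE) ε hε
    obtain ⟨S, hS⟩ := h1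
    refine ⟨S, fun T hT => ?_⟩
    have := hS T hT
    exact (le_abs_self _).trans this.le
  obtain ⟨P, hP⟩ : ∃ P : ℕ, ∀ p ∈ S, (p : ℕ) ≤ P :=
    ⟨S.sup (fun p => (p : ℕ)), fun p hp => Finset.le_sup (f := fun p : Nat.Primes => (p : ℕ)) hp⟩
  refine ⟨P, fun F hF => ?_⟩
  set T : Finset Nat.Primes := F.attach.image (fun x => mkP x.1 (hF x.1 x.2).1) with hT
  have h3 : ∑ p ∈ T, (if E p then 1 / ((p : ℕ) : ℝ) else 0) = ∑ p ∈ F, 1 / (p : ℝ) := by
    rw [hT, Finset.sum_image, ← Finset.sum_attach F]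
    · refine Finset.sum_congr rfl fun p _ => ?_
      rw [mkP_coe, if_pos (hF p.1 p.2).2.1]
    · intro x _ y _ hxy
      exact Subtype.ext (congrArg (fun p : Nat.Primes => (p : ℕ)) hxy)
  rw [← h3]
  refine hS T ?_
  rw [Finset.disjoint_left]
  intro p hp hpS
  rw [hT, Finset.mem_image] at hp
  obtain ⟨x, _, rfl⟩ := hp
  have h6 : (x : ℕ) ≤ P := hP _ hpS
  have h7 := (hF x.1 x.2).2.2
  omega

open scoped Classical in
/-- a sparse set of primes has density zero -/
theorem sparse_count {E : ℕ → Prop} (hE : Spa E) (η : ℝ) (hη : 0 < η) :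
    ∃ N₀ : ℕ, ∀ N : ℕ, N₀ ≤ N →
      (((Ioc 0 N).filter fun p => p.Prime ∧ E p).card : ℝ) ≤ η * N := by
  classical
  obtain ⟨P, hP⟩ := tail hE (η / 2) (by positivity)
  obtain ⟨N₀, hN₀⟩ := exists_nat_ge (2 * (P : ℝ) / η)
  refine ⟨N₀, fun N hN => ?_⟩
  have hNr : 2 * (P : ℝ) / η ≤ N := hN₀.trans (by exact_mod_cast hN)
  set F : Finset ℕ := (Ioc P N).filter (fun p => p.Prime ∧ E p) with hF
  have h1 : (Ioc 0 N).filter (fun p => p.Prime ∧ E p) ⊆ (Ioc 0 P) ∪ F := by
    intro p hp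
    rw [mem_filter, mem_Ioc] at hp
    rw [mem_union, mem_Ioc, hF, mem_filter, mem_Ioc]
    by_cases h : p ≤ P
    · exact Or.inl ⟨hp.1.1, h⟩
    · exact Or.inr ⟨⟨by omega, hp.1.2⟩, hp.2⟩
  have h2 : (((Ioc 0 N).filter fun p => p.Prime ∧ E p).card : ℝ) ≤ P + F.card := by
    have := (Finset.card_le_card h1).trans (Finset.card_union_le _ _)
    rw [Nat.card_Ioc, Nat.sub_zero] at this
    exact_mod_cast this
  have h3 : (F.card : ℝ) ≤ η / 2 * N := by
    have h4 := hP F (fun p hp => by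
      rw [hF, mem_filter, mem_Ioc] at hp
      exact ⟨hp.2.1, hp.2.2, hp.1.1⟩)
    have h5 : (F.card : ℝ) ≤ N * ∑ p ∈ F, 1 / (p : ℝ) := by
      rw [Finset.mul_sum, Finset.card_eq_sum_ones]
      push_cast
      refine Finset.sum_le_sum fun p hp => ?_
      rw [hF, mem_filter, mem_Ioc] at hp
      have h6 : (0 : ℝ) < p := by exact_mod_cast hp.2.1.pos
      have h7 : (p : ℝ) ≤ N := by exact_mod_cast hp.1.2
      rw [mul_one_div, le_div_iff₀ h6]
      linarith
    calc (F.card : ℝ) ≤ N * ∑ p ∈ F, 1 / (p : ℝ) := h5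
      _ ≤ N * (η / 2) := mul_le_mul_of_nonneg_left h4 (Nat.cast_nonneg _)
      _ = η / 2 * N := by ring
  have h8 : (P : ℝ) ≤ η / 2 * N := by
    rw [div_le_iff₀ hη] at hNr
    linarith
  linarith

open scoped Classical in
/-- in a residue class few integers have a prime factor in a sparse set of primes -/
theorem cnt {E : ℕ → Prop} (hE : Spa E) (ε : ℝ) (hε : 0 < ε) :
    ∃ Q₀ : ℕ, 0 < Q₀ ∧ ∀ W : ℕ, 0 < W → Q₀ ∣ W → ∀ κ : ℕ, Nat.Coprime κ W →
      ∃ N₀ : ℕ, ∀ N : ℕ, N₀ ≤ N →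
        (((Ioc 0 N).filter fun k => k ≡ κ [MOD W] ∧ ∃ p, p.Prime ∧ E p ∧ p ∣ k).card : ℝ) ≤
          ε * N / W := by
  classical
  obtain ⟨P, hP⟩ := tail hE (ε / 4) (by positivity)
  refine ⟨P.factorial, Nat.factorial_pos P, fun W hW hdvd κ hκ => ?_⟩
  have hWr : (0 : ℝ) < W := by exact_mod_cast hW
  obtain ⟨N₁, hN₁⟩ := sparse_count hE (ε / (2 * (W : ℝ) ^ 2)) (by positivity)
  refine ⟨N₁, fun N hN => ?_⟩
  -- prime factors are large and do not divide `W`
  have hbig : ∀ k, k ≡ κ [MOD W] → ∀ p, p.Prime → p ∣ k → P < p ∧ Nat.Coprime p W := by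
    intro k hk p hp hpk
    have h1 : Nat.Coprime k W := by
      unfold Nat.Coprime at *
      rw [hk.gcd_eq, hκ]
    have h2 : Nat.Coprime p W := Nat.Coprime.coprime_dvd_left hpk h1
    refine ⟨?_, h2⟩
    by_contra h3
    push Not at h3
    have h4 : p ∣ W := ((hp.dvd_factorial).2 h3).trans hdvd
    have h5 := Nat.Coprime.eq_one_of_dvd h2 h4
    exact hp.one_lt.ne' h5
  set F : Finset ℕ := (Ioc 0 N).filter (fun p => (p.Prime ∧ E p) ∧ P < p ∧ p * W ≤ N ∧
    Nat.Coprime p W) with hF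
  set G : Finset ℕ := (Ioc 0 N).filter (fun p => p.Prime ∧ E p) with hG
  have hsub : ((Ioc 0 N).filter fun k => k ≡ κ [MOD W] ∧ ∃ p, p.Prime ∧ E p ∧ p ∣ k) ⊆
      (F.biUnion fun p => (Ioc 0 N).filter fun k => k ≡ κ [MOD W] ∧ p ∣ k) ∪
      ((Finset.range W ×ˢ G).image fun x => x.1 * x.2) := by
    intro k hk
    rw [mem_filter, mem_Ioc] at hk
    obtain ⟨⟨hk0, hkN⟩, hkκ, p, hp, hpE, hpk⟩ := hk
    obtain ⟨hPp, hpW⟩ := hbig k hkκ p hp hpk
    have hpN : p ≤ N := (Nat.le_of_dvd hk0 hpk).trans hkN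
    rw [mem_union]
    by_cases h1 : p * W ≤ N
    · left
      rw [mem_biUnion]
      refine ⟨p, ?_, ?_⟩
      · rw [hF, mem_filter, mem_Ioc]
        exact ⟨⟨hp.pos, hpN⟩, ⟨hp, hpE⟩, hPp, h1, hpW⟩
      · rw [mem_filter, mem_Ioc]
        exact ⟨⟨hk0, hkN⟩, hkκ, hpk⟩
    · right
      obtain ⟨l, rfl⟩ := hpk
      rw [Finset.mem_image]
      refine ⟨(l, p), ?_, Nat.mul_comm l p⟩
      rw [Finset.mem_product, Finset.mem_range, hG, mem_filter, mem_Ioc]
      refine ⟨?_, ⟨hp.pos, hpN⟩, hp, hpE⟩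
      by_contra h2
      push Not at h2
      exact h1 ((Nat.mul_le_mul_left p h2).trans hkN)
  have h1 : (((F.biUnion fun p => (Ioc 0 N).filter fun k => k ≡ κ [MOD W] ∧ p ∣ k)).card : ℝ) ≤
      ε / 2 * N / W := by
    have h2 : (((F.biUnion fun p => (Ioc 0 N).filter fun k => k ≡ κ [MOD W] ∧ p ∣ k)).card : ℝ) ≤
        ∑ p ∈ F, 2 * (N / W : ℝ) * (1 / p) := by
      refine le_trans (Nat.cast_le.2 Finset.card_biUnion_le) ?_
      push_cast
      refine Finset.sum_le_sum fun p hp => ?_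
      rw [hF, mem_filter] at hp
      obtain ⟨-, ⟨hpp, -⟩, -, hpWN, hpW⟩ := hp
      have hpr : (0 : ℝ) < p := by exact_mod_cast hpp.pos
      -- all elements are congruent modulo `p * W`
      rcases ((Ioc 0 N).filter fun k => k ≡ κ [MOD W] ∧ p ∣ k).eq_empty_or_nonempty with h0 | ⟨k₀, hk₀⟩
      · rw [h0, Finset.card_empty]
        push_cast
        positivity
      · rw [mem_filter] at hk₀
        have h3 : ((Ioc 0 N).filter fun k => k ≡ κ [MOD W] ∧ p ∣ k) ⊆
            (Ioc 0 N).filter fun k => k ≡ k₀ [MOD (p * W)] := by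
          intro k hk
          rw [mem_filter] at hk ⊢
          refine ⟨hk.1, ?_⟩
          refine (Nat.modEq_and_modEq_iff_modEq_mul hpW).1 ⟨?_, hk.2.1.trans hk₀.2.1.symm⟩
          exact ((Nat.modEq_zero_iff_dvd).2 hk.2.2).trans ((Nat.modEq_zero_iff_dvd).2 hk₀.2.2).symm
        have h4 : (((Ioc 0 N).filter fun k => k ≡ κ [MOD W] ∧ p ∣ k).card : ℝ) ≤
            (((Ioc 0 N).filter fun k => k ≡ k₀ [MOD (p * W)]).card : ℝ) := by
          exact_mod_cast Finset.card_le_card h3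
        have h5 := card_class_le N k₀ (p * W)
        have h6 : (1 : ℝ) ≤ N / ((p * W : ℕ) : ℝ) := by
          rw [le_div_iff₀ (by exact_mod_cast Nat.mul_pos hpp.pos hW), one_mul]
          exact_mod_cast hpWN
        have h7 : (N : ℝ) / ((p * W : ℕ) : ℝ) = (N / W : ℝ) * (1 / p) := by
          push_cast
          field_simp
        rw [h7] at h5 h6
        linarith
    refine h2.trans ?_
    rw [← Finset.mul_sum]
    have h3 := hP F (fun p hp => by
      rw [hF, mem_filter] at hp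
      exact ⟨hp.2.1.1, hp.2.1.2, hp.2.2.1⟩)
    calc 2 * (N / W : ℝ) * ∑ p ∈ F, 1 / (p : ℝ) ≤ 2 * (N / W : ℝ) * (ε / 4) :=
          mul_le_mul_of_nonneg_left h3 (by positivity)
      _ = ε / 2 * N / W := by ring
  have h2 : ((((Finset.range W ×ˢ G).image fun x => x.1 * x.2)).card : ℝ) ≤ ε / 2 * N / W := by
    have h3 : (((Finset.range W ×ˢ G).image fun x => x.1 * x.2)).card ≤ W * G.card := by
      refine Finset.card_image_le.trans ?_
      rw [Finset.card_product, Finset.card_range]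
    have h4 := hN₁ N hN
    calc ((((Finset.range W ×ˢ G).image fun x => x.1 * x.2)).card : ℝ) ≤ ((W * G.card : ℕ) : ℝ) := by
          exact_mod_cast h3
      _ = W * (G.card : ℝ) := by push_cast; ring
      _ ≤ W * (ε / (2 * (W : ℝ) ^ 2) * N) := mul_le_mul_of_nonneg_left h4 hWr.le
      _ = ε / 2 * N / W := by field_simp
  have h5 : (((Ioc 0 N).filter fun k => k ≡ κ [MOD W] ∧ ∃ p, p.Prime ∧ E p ∧ p ∣ k).card : ℝ) ≤
      (((F.biUnion fun p => (Ioc 0 N).filter fun k => k ≡ κ [MOD W] ∧ p ∣ k)).card : ℝ) +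
      ((((Finset.range W ×ˢ G).image fun x => x.1 * x.2)).card : ℝ) := by
    have := (Finset.card_le_card hsub).trans (Finset.card_union_le _ _)
    exact_mod_cast this
  calc _ ≤ ε / 2 * N / W + ε / 2 * N / W := h5.trans (add_le_add h1 h2)
    _ = ε * N / W := by ring

end Pool.Agent.Helper31.MA2
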