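import Pool.Agent.Helper31.MA2.Pos

/-! The limits of the averages over a class times a label. -/

set_option autoImplicit false
set_option linter.unusedSectionVars false

namespace Pool.Agent.Helper31.MA2

open Finset Filter Topology MeasureTheory ProbabilityTheory
open scoped InnerProductSpace ENNReal
open Pool.Agent.K7.H83.MA

variable {X : Type*} [MeasurableSpace X] [StandardBorelSpace X] {μ : Measure X}
  [IsProbabilityMeasure μ]
variable {r : ℕ} {c : ℕ → Fin r} {T : ℕ → X → X}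

/-- the limits of the averages over two labels, the first one of any density -/
theorem lab_lim0 (h : Sys c μ T) {Q : ℕ} (hQ : 0 < Q) {π : Fin r → ℕ} (hπ : Rep c π)
    {s' : ℕ} (hs0' : 0 < s') (g g' : GG r Q) {d' : ℝ} (hd' : 0 < d')
    (hseq' : Tendsto (fun N : ℕ => ((lab c Q N s' g').card : ℝ) / N) atTop (𝓝 d'))
    {φ : X → ℝ} (hφ : RM φ) (b : Lp ℂ 2 μ) :
    Tendsto (fun N : ℕ => ((N : ℂ)⁻¹ * (N : ℂ)⁻¹) * ∑ m ∈ lab c Q N 1 g, ∑ n ∈ lab c Q N s' g',
        ⟪b, bl μ (ww T (rc φ) (rc φ) (rc φ) m n)⟫_ℂ -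
      ((((lab c Q N s' g').card : ℝ) / N : ℝ) : ℂ) * ((N : ℂ)⁻¹ * ∑ m ∈ lab c Q N 1 g,
        ⟪b, mulB μ (fun x => rc φ (T m x)) (PI (koop μ T) (qq c Q π)
          (koop μ T (s' * tt Q π g') (bl μ (fun x => rc φ x * rc φ (T m x)))))⟫_ℂ)) atTop (𝓝 0) := by
  obtain ⟨d, hd⟩ := lab_dens c Q 1 g
  have hd0 : 0 ≤ d := ge_of_tendsto' hd fun N => by positivity
  rcases hd0.lt_or_eq with hpos | hzero
  · exact lab_lim h hQ hπ one_pos hs0' g g' hpos hd' hd hseq' hφ.bm hφ.bm hφ.bm b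
  · rw [← hzero] at hd
    have ht' : 0 < s' * tt Q π g' := Nat.mul_pos hs0' (tt_pos Q hπ.pos g')
    set t' := s' * tt Q π g' with htd'
    have hb0 := norm_nonneg b
    have h1 : Tendsto (fun N : ℕ => 2 * ‖b‖ * (((lab c Q N 1 g).card : ℝ) / N)) atTop (𝓝 0) := by
      have := hd.const_mul (2 * ‖b‖)
      rwa [mul_zero] at this
    rw [tendsto_zero_iff_norm_tendsto_zero]
    refine squeeze_zero (fun _ => norm_nonneg _) (fun N => ?_) h1
    rcases Nat.eq_zero_or_pos N with h0 | h0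
    · subst h0; simp
    have hN : (0 : ℝ) < N := by exact_mod_cast h0
    have hcard : ∀ (s : ℕ) (g : GG r Q), ((lab c Q N s g).card : ℝ) ≤ N := by
      intro s g
      have h2 : lab c Q N s g ⊆ Ioc 0 N := fun n hn => mem_Ioc.2 ((mem_lab c Q).1 hn).1
      have := Finset.card_le_card h2
      rw [Nat.card_Ioc] at this
      exact_mod_cast this
    have e1 : ‖((N : ℂ)⁻¹ * (N : ℂ)⁻¹) * ∑ m ∈ lab c Q N 1 g, ∑ n ∈ lab c Q N s' g',
        ⟪b, bl μ (ww T (rc φ) (rc φ) (rc φ) m n)⟫_ℂ‖ ≤ ‖b‖ * (((lab c Q N 1 g).card : ℝ) / N) := by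
      rw [norm_mul, norm_mul, norm_inv, Complex.norm_natCast]
      have h2 : ∀ m ∈ lab c Q N 1 g, ‖∑ n ∈ lab c Q N s' g',
          ⟪b, bl μ (ww T (rc φ) (rc φ) (rc φ) m n)⟫_ℂ‖ ≤ N * ‖b‖ := by
        intro m hm
        have hm' := ((mem_lab c Q).1 hm).1
        have h3 : ∀ n ∈ lab c Q N s' g', ‖⟪b, bl μ (ww T (rc φ) (rc φ) (rc φ) m n)⟫_ℂ‖ ≤ ‖b‖ := by
          intro n hn
          have hn' := ((mem_lab c Q).1 hn).1
          refine (norm_inner_le_norm _ _).trans ?_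
          have h4 : ‖bl μ (ww T (rc φ) (rc φ) (rc φ) m n)‖ ≤ 1 :=
            bl_norm_le (ww_BM h hφ.bm hφ.bm hφ.bm hm'.1 hn'.1) zero_le_one fun x => by
              have := ww_bound (T := T) hφ.bd hφ.bd hφ.bd zero_le_one zero_le_one m n x
              simpa using this
          calc _ ≤ ‖b‖ * 1 := mul_le_mul_of_nonneg_left h4 hb0
            _ = ‖b‖ := mul_one _
        refine (norm_sum_le _ _).trans ((Finset.sum_le_sum h3).trans ?_)
        rw [Finset.sum_const, nsmul_eq_mul]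
        exact mul_le_mul_of_nonneg_right (hcard _ _) hb0
      have h3 := (norm_sum_le (lab c Q N 1 g) _).trans (Finset.sum_le_sum h2)
      rw [Finset.sum_const, nsmul_eq_mul] at h3
      calc _ ≤ ((N : ℝ)⁻¹ * (N : ℝ)⁻¹) * ((lab c Q N 1 g).card * (N * ‖b‖)) :=
            mul_le_mul_of_nonneg_left h3 (by positivity)
        _ = _ := by field_simp
    have e2 : ‖((((lab c Q N s' g').card : ℝ) / N : ℝ) : ℂ) * ((N : ℂ)⁻¹ * ∑ m ∈ lab c Q N 1 g,
        ⟪b, mulB μ (fun x => rc φ (T m x)) (PI (koop μ T) (qq c Q π)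
          (koop μ T t' (bl μ (fun x => rc φ x * rc φ (T m x)))))⟫_ℂ)‖ ≤
        ‖b‖ * (((lab c Q N 1 g).card : ℝ) / N) := by
      rw [norm_mul, norm_mul, norm_inv, Complex.norm_natCast, Complex.norm_real]
      have h2 : ∀ m ∈ lab c Q N 1 g, ‖⟪b, mulB μ (fun x => rc φ (T m x)) (PI (koop μ T) (qq c Q π)
          (koop μ T t' (bl μ (fun x => rc φ x * rc φ (T m x)))))⟫_ℂ‖ ≤ ‖b‖ := by
        intro m hm
        have hm' := ((mem_lab c Q).1 hm).1
        have hmm := (h.mp m hm'.1).measurable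
        refine (norm_inner_le_norm _ _).trans ?_
        have h3 : ‖mulB μ (fun x => rc φ (T m x)) (PI (koop μ T) (qq c Q π)
          (koop μ T t' (bl μ (fun x => rc φ x * rc φ (T m x)))))‖ ≤ 1 := by
          refine (mulB_norm (hφ.bm.comp hmm) (fun x => hφ.bd (T m x)) _).trans ?_
          rw [one_mul]
          refine (PI_norm _ _).trans ?_
          rw [koop_norm (h.mp t' ht')]
          refine bl_norm_le (hφ.bm.mul (hφ.bm.comp hmm)) zero_le_one fun x => ?_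
          rw [norm_mul]
          exact mul_le_one₀ (hφ.bd _) (norm_nonneg _) (hφ.bd _)
        calc _ ≤ ‖b‖ * 1 := mul_le_mul_of_nonneg_left h3 hb0
          _ = ‖b‖ := mul_one _
      have h3 := (norm_sum_le (lab c Q N 1 g) _).trans (Finset.sum_le_sum h2)
      rw [Finset.sum_const, nsmul_eq_mul] at h3
      have h4 : ‖((lab c Q N s' g').card : ℝ) / N‖ ≤ 1 := by
        rw [Real.norm_of_nonneg (by positivity), div_le_one hN]
        exact hcard _ _
      calc _ ≤ 1 * ((N : ℝ)⁻¹ * ((lab c Q N 1 g).card * ‖b‖)) :=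
            mul_le_mul h4 (mul_le_mul_of_nonneg_left h3 (by positivity)) (by positivity)
              zero_le_one
        _ = _ := by ring
    refine (norm_sub_le _ _).trans ?_
    linarith

/-- the limits of the averages over the class `1` and a label -/
theorem main_lim (h : Sys c μ T) {W : ℕ} (hW : 0 < W) {π : Fin r → ℕ} (hπ : Rep c π)
    {s' : ℕ} (hs0' : 0 < s') (g' : GG r W) {d' : ℝ} (hd' : 0 < d')
    (hseq' : Tendsto (fun N : ℕ => ((lab c W N s' g').card : ℝ) / N) atTop (𝓝 d'))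
    {φ : X → ℝ} (hφ : RM φ) (b : Lp ℂ 2 μ) :
    Tendsto (fun N : ℕ => ((N : ℂ)⁻¹ * (N : ℂ)⁻¹) * ∑ m ∈ labu c W N 1 1, ∑ n ∈ lab c W N s' g',
        ⟪b, bl μ (ww T (rc φ) (rc φ) (rc φ) m n)⟫_ℂ -
      ((((lab c W N s' g').card : ℝ) / N : ℝ) : ℂ) * ((N : ℂ)⁻¹ * ∑ m ∈ labu c W N 1 1,
        ⟪b, mulB μ (fun x => rc φ (T m x)) (PI (koop μ T) (qq c W π)
          (koop μ T (s' * tt W π g') (bl μ (fun x => rc φ x * rc φ (T m x)))))⟫_ℂ)) atTop (𝓝 0) := by
  obtain ⟨S, hS⟩ := labu_split (M := ℂ) c hW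
  have h1 : Tendsto (fun N : ℕ => ∑ g ∈ S,
      (((N : ℂ)⁻¹ * (N : ℂ)⁻¹) * ∑ m ∈ lab c W N 1 g, ∑ n ∈ lab c W N s' g',
        ⟪b, bl μ (ww T (rc φ) (rc φ) (rc φ) m n)⟫_ℂ -
      ((((lab c W N s' g').card : ℝ) / N : ℝ) : ℂ) * ((N : ℂ)⁻¹ * ∑ m ∈ lab c W N 1 g,
        ⟪b, mulB μ (fun x => rc φ (T m x)) (PI (koop μ T) (qq c W π)
          (koop μ T (s' * tt W π g') (bl μ (fun x => rc φ x * rc φ (T m x)))))⟫_ℂ)))
      atTop (𝓝 (∑ g ∈ S, 0)) :=
    tendsto_finsetSum _ fun g _ => lab_lim0 h hW hπ hs0' g g' hd' hseq' hφ b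
  rw [Finset.sum_const_zero] at h1
  refine h1.congr fun N => ?_
  rw [Finset.sum_sub_distrib, ← Finset.mul_sum, ← Finset.mul_sum, ← Finset.mul_sum, ← hS, ← hS]

end Pool.Agent.Helper31.MA2
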