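import Pool.Agent.Helper31.MA2.Lim

/-! Lower bounds. -/

set_option autoImplicit false
set_option linter.unusedSectionVars false

namespace Pool.Agent.Helper31.MA2

open Finset Filter Topology MeasureTheory ProbabilityTheory
open scoped InnerProductSpace ENNReal
open Pool.Agent.K7.H83.MA

theorem labu_mod {r : ℕ} (c : ℕ → Fin r) {W N n : ℕ} (hn : n ∈ labu c W N 1 1) :
    n ≡ 1 [MOD W] := by
  rw [mem_labu] at hn
  have h10 := res_eq c W hn.1.1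
  rw [hn.2.1, hn.2.2] at h10
  refine (ZMod.natCast_eq_natCast_iff _ _ _).1 ?_
  rw [h10]; simp

variable {X : Type*} [MeasurableSpace X] [StandardBorelSpace X] {μ : Measure X}
  [IsProbabilityMeasure μ]
variable {r : ℕ} {c : ℕ → Fin r} {T : ℕ → X → X}

theorem mulB_adj {F : X → ℂ} (hF : BM F) (hreal : ∀ x, (starRingEnd ℂ) (F x) = F x)
    (f g : Lp ℂ 2 μ) : ⟪f, mulB μ F g⟫_ℂ = ⟪mulB μ F f, g⟫_ℂ := by
  rw [L2.inner_def, L2.inner_def]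
  refine integral_congr_ae ?_
  filter_upwards [mulB_coe hF f, mulB_coe hF g] with x h1 h2
  rw [RCLike.inner_apply, RCLike.inner_apply, h1, h2, map_mul, hreal]
  ring

/-- the functions `f₀ φ (φ ∘ T m)` -/
def kf (T : ℕ → X → X) (f₀ φ : X → ℝ) (m : ℕ) (x : X) : ℝ := f₀ x * φ x * φ (T m x)

theorem kf_RM (h : Sys c μ T) {f₀ φ : X → ℝ} (hf : RM f₀) (hφ : RM φ) {m : ℕ} (hm : 0 < m) :
    RM (kf T f₀ φ m) := (hf.mul hφ).mul (hφ.comp (h.mp m hm).measurable)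

theorem PI_inner_comm (h : Sys c μ T) {q : Fin r → ℕ} (hq : ∀ i, 0 < q i) {s : ℕ} (hs : 0 < s)
    (y : Lp ℂ 2 μ) : ⟪PI (koop μ T) q y, koop μ T s (PI (koop μ T) q y)⟫_ℂ =
      ⟪y, PI (koop μ T) q (koop μ T s y)⟫_ℂ := by
  rw [← PI_comm h.FG hq hs, ← PI_self, PI_of_mem (PI_mem _ _), PI_self]

/-- the contribution of a label -/
theorem step_h (h : Sys c μ T) {φ f₀ : X → ℝ} (hφ : RM φ) (hf : RM f₀) {g : Lp ℂ 2 μ} {ε : ℝ}
    (hε : 0 ≤ ε) (hfg : ‖bl μ (rc f₀) - g‖ ≤ ε) {Qa W : ℕ} (hW : 0 < W) (hd : Qa ∣ W)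
    (hnps : FewBad (koop μ T) g ε Qa W)
    (hup : ∃ N₀ : ℕ, ∀ N : ℕ, N₀ ≤ N → ((labu c W N 1 1).card : ℝ) ≤ 2 * (N / W))
    {π : Fin r → ℕ} (hπ : Rep c π) {s : ℕ} (hs : 0 < s)
    (hsW : ∀ p, p.Prime → p ∣ W → p ∣ s) (hsQ : Qa ∣ s) {d : ℝ} (hd0 : 0 < d)
    (hdens : Tendsto (fun N : ℕ => ((lab c W N s 0).card : ℝ) / N) atTop (𝓝 d))
    (η : ℝ) (hη : 0 < η) :
    ∃ N₀ : ℕ, ∀ N : ℕ, N₀ ≤ N → (((lab c W N s 0).card : ℝ) / N) *
      ((N : ℝ)⁻¹ * ∑ m ∈ labu c W N 1 1, (⟪PI (koop μ T) (qq c W π) (bl μ (rc (kf T f₀ φ m))),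
        koop μ T s (PI (koop μ T) (qq c W π) (bl μ (rc (kf T f₀ φ m))))⟫_ℂ).re - 8 * ε / W) - η ≤
      ((N : ℝ)⁻¹ * (N : ℝ)⁻¹) * ∑ m ∈ labu c W N 1 1, ∑ n ∈ lab c W N s 0,
        (⟪bl μ (rc φ), mulB μ (ww T (rc φ) (rc φ) (rc φ) m n)
          (koop μ T (m + n) (bl μ (rc f₀)))⟫_ℂ).re := by
  classical
  have hWr : (0 : ℝ) < W := by exact_mod_cast hW
  have hq : ∀ i, 0 < qq c W π i := by
    intro i
    unfold qq
    split_ifs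
    · exact pow_pos (hπ.pos i) _
    · exact one_pos
  set b : Lp ℂ 2 μ := bl μ (rc fun x => f₀ x * φ x) with hb
  have hlim := main_lim h hW hπ hs 0 hd0 hdens hφ b
  rw [tt_zero W π hW, mul_one] at hlim
  obtain ⟨N₁, hN₁⟩ := (Metric.tendsto_atTop.1 hlim) η hη
  obtain ⟨N₂, hN₂⟩ := bad_count hW hd hnps
  obtain ⟨N₃, hN₃⟩ := hup
  refine ⟨max (max N₁ N₂) (max N₃ 1), fun N hN => ?_⟩
  have hN1 : N₁ ≤ N := (le_max_left _ _).trans ((le_max_left _ _).trans hN)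
  have hN2 : N₂ ≤ N := (le_max_right _ _).trans ((le_max_left _ _).trans hN)
  have hN3 : N₃ ≤ N := (le_max_left _ _).trans ((le_max_right _ _).trans hN)
  have hN0 : 0 < N := (le_max_right _ _).trans ((le_max_right _ _).trans hN)
  have hNr : (0 : ℝ) < N := by exact_mod_cast hN0
  have h1 := hN₁ N hN1
  rw [dist_zero_right] at h1
  set 𝓐 := labu c W N 1 1 with h𝓐
  set 𝓑 := lab c W N s 0 with h𝓑
  have hA3 : (𝓐.card : ℝ) ≤ 2 * (N / W) := hN₃ N hN3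
  have hmA : ∀ m ∈ 𝓐, (0 < m ∧ m ≤ N) ∧ m ≡ 1 [MOD W] := fun m hm =>
    ⟨((mem_labu c W).1 hm).1, labu_mod c hm⟩
  have hnB : ∀ n ∈ 𝓑, (0 < n ∧ n ≤ N) ∧ s ∣ n := fun n hn => by
    rw [h𝓑, mem_lab] at hn
    refine ⟨hn.1, ?_⟩
    have := sp_dvd c W hn.1.1
    rwa [hn.2.1] at this
  -- real parts
  have hre : (((N : ℂ)⁻¹ * (N : ℂ)⁻¹) * ∑ m ∈ 𝓐, ∑ n ∈ 𝓑,
        ⟪b, bl μ (ww T (rc φ) (rc φ) (rc φ) m n)⟫_ℂ -
      (((𝓑.card : ℝ) / N : ℝ) : ℂ) * ((N : ℂ)⁻¹ * ∑ m ∈ 𝓐,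
        ⟪b, mulB μ (fun x => rc φ (T m x)) (PI (koop μ T) (qq c W π)
          (koop μ T s (bl μ (fun x => rc φ x * rc φ (T m x)))))⟫_ℂ)).re =
      ((N : ℝ)⁻¹ * (N : ℝ)⁻¹) * ∑ m ∈ 𝓐, ∑ n ∈ 𝓑,
        (⟪b, bl μ (ww T (rc φ) (rc φ) (rc φ) m n)⟫_ℂ).re -
      ((𝓑.card : ℝ) / N) * ((N : ℝ)⁻¹ * ∑ m ∈ 𝓐,
        (⟪b, mulB μ (fun x => rc φ (T m x)) (PI (koop μ T) (qq c W π)
          (koop μ T s (bl μ (fun x => rc φ x * rc φ (T m x)))))⟫_ℂ).re) := by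
    have e1 : ((N : ℂ)⁻¹ * (N : ℂ)⁻¹) = (((N : ℝ)⁻¹ * (N : ℝ)⁻¹ : ℝ) : ℂ) := by push_cast; rfl
    have e2 : (N : ℂ)⁻¹ = (((N : ℝ)⁻¹ : ℝ) : ℂ) := by push_cast; rfl
    rw [e1, e2, Complex.sub_re, Complex.re_ofReal_mul, Complex.re_ofReal_mul,
      Complex.re_ofReal_mul, Complex.re_sum, Complex.re_sum]
    simp only [Complex.re_sum]
  have h2 := (abs_le.1 ((Complex.abs_re_le_norm _).trans h1.le)).1
  rw [hre] at h2
  -- the main term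
  have h3 : ∀ m ∈ 𝓐, (⟪PI (koop μ T) (qq c W π) (bl μ (rc (kf T f₀ φ m))),
        koop μ T s (PI (koop μ T) (qq c W π) (bl μ (rc (kf T f₀ φ m))))⟫_ℂ).re ≤
      (⟪b, mulB μ (fun x => rc φ (T m x)) (PI (koop μ T) (qq c W π)
          (koop μ T s (bl μ (fun x => rc φ x * rc φ (T m x)))))⟫_ℂ).re := by
    intro m hm
    have hm0 := (hmA m hm).1.1
    have hmm := (h.mp m hm0).measurable
    have hK := kf_RM h hf hφ hm0
    have hH : RM (fun x => φ x * φ (T m x)) := hφ.mul (hφ.comp hmm)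
    rw [PI_inner_comm h hq hs, mulB_adj (hφ.bm.comp hmm) (fun x => rc_conj φ _), hb,
      mulB_bl (hφ.bm.comp hmm) (hf.mul hφ).bm]
    have e1 : (fun x => rc φ (T m x) * rc (fun x => f₀ x * φ x) x) = rc (kf T f₀ φ m) := by
      funext x
      unfold rc kf
      push_cast
      ring
    have e2 : (fun x => rc φ x * rc φ (T m x)) = rc (fun x => φ x * φ (T m x)) := by
      funext x
      unfold rc
      push_cast
      ring
    rw [e1, e2]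
    refine mono_PI h hq hs hK hK hH fun x => ?_
    unfold kf
    have h4 : 0 ≤ φ x * φ (T m x) := mul_nonneg (hφ.nn _) (hφ.nn _)
    have h5 := hf.le x
    calc f₀ x * φ x * φ (T m x) = f₀ x * (φ x * φ (T m x)) := by ring
      _ ≤ 1 * (φ x * φ (T m x)) := mul_le_mul_of_nonneg_right h5 h4
      _ = _ := one_mul _
  have h4 := Finset.sum_le_sum h3
  -- the errors
  have h5 : ∀ m ∈ 𝓐, ∀ n ∈ 𝓑, (⟪b, bl μ (ww T (rc φ) (rc φ) (rc φ) m n)⟫_ℂ).re -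
      (2 * ε + badw (koop μ T) g (m + n)) ≤
      (⟪bl μ (rc φ), mulB μ (ww T (rc φ) (rc φ) (rc φ) m n)
          (koop μ T (m + n) (bl μ (rc f₀)))⟫_ℂ).re := by
    intro m hm n hn
    have hm0 := (hmA m hm).1.1
    have hn0 := (hnB n hn).1.1
    have h6 := term_ge (μ := μ) h hφ hf hm0 hn0
    have h7 := koop_near h hfg hf.norm (k := m + n) (by omega)
    rw [← hb] at h6
    linarith
  have h6 : ∑ m ∈ 𝓐, ∑ n ∈ 𝓑, (⟪b, bl μ (ww T (rc φ) (rc φ) (rc φ) m n)⟫_ℂ).re -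
      (2 * ε * (𝓐.card * 𝓑.card) + 2 * (𝓑.card * (ε * (2 * N) / W))) ≤
      ∑ m ∈ 𝓐, ∑ n ∈ 𝓑, (⟪bl μ (rc φ), mulB μ (ww T (rc φ) (rc φ) (rc φ) m n)
          (koop μ T (m + n) (bl μ (rc f₀)))⟫_ℂ).re := by
    have h7 := Finset.sum_le_sum fun m hm => Finset.sum_le_sum (h5 m hm)
    refine le_trans ?_ h7
    simp only [Finset.sum_sub_distrib, Finset.sum_add_distrib, Finset.sum_const, nsmul_eq_mul]
    have h8 : ∑ m ∈ 𝓐, ∑ n ∈ 𝓑, badw (koop μ T) g (m + n) ≤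
        2 * (𝓑.card * (ε * (2 * N) / W)) := by
      rw [Finset.sum_comm]
      have h9 : ∀ n ∈ 𝓑, ∑ m ∈ 𝓐, badw (koop μ T) g (m + n) ≤
          2 * (ε * (2 * N) / W) := by
        intro n hn
        obtain ⟨hn1, hn2⟩ := hnB n hn
        refine (sum_bad hmA).trans ?_
        refine mul_le_mul_of_nonneg_left ?_ zero_le_two
        have hcop : Nat.Coprime (1 + n) W := by
          refine Nat.Coprime.symm (Nat.coprime_of_dvd fun p hp hpW hpn => ?_)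
          have h10 := (hsW p hp hpW).trans hn2
          have h11 : p ∣ 1 := (Nat.dvd_add_left h10).1 hpn
          exact hp.one_lt.ne' (Nat.dvd_one.1 h11)
        have hmod : 1 + n ≡ 1 [MOD Qa] := by
          have h10 : n ≡ 0 [MOD Qa] := (Nat.modEq_zero_iff_dvd).2 (hsQ.trans hn2)
          simpa using (Nat.ModEq.refl 1).add h10
        exact hN₂ N hN2 n hn1.2 hcop hmod
      refine (Finset.sum_le_sum h9).trans (le_of_eq ?_)
      rw [Finset.sum_const, nsmul_eq_mul]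
      ring
    have h9 : (𝓐.card : ℝ) * (𝓑.card * (2 * ε)) = 2 * ε * (𝓐.card * 𝓑.card) := by ring
    linarith
  have hB0 : (0 : ℝ) ≤ (𝓑.card : ℝ) := Nat.cast_nonneg _
  have h7 : ((N : ℝ)⁻¹ * (N : ℝ)⁻¹) * (2 * ε * (𝓐.card * 𝓑.card) +
      2 * (𝓑.card * (ε * (2 * N) / W))) ≤ ((𝓑.card : ℝ) / N) * (8 * ε / W) := by
    have h8 : 2 * ε * (𝓐.card * 𝓑.card) ≤ 2 * ε * (2 * (N / W) * 𝓑.card) :=
      mul_le_mul_of_nonneg_left (mul_le_mul_of_nonneg_right hA3 hB0) (by positivity)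
    calc ((N : ℝ)⁻¹ * (N : ℝ)⁻¹) * (2 * ε * (𝓐.card * 𝓑.card) +
          2 * (𝓑.card * (ε * (2 * N) / W)))
        ≤ ((N : ℝ)⁻¹ * (N : ℝ)⁻¹) * (2 * ε * (2 * (N / W) * 𝓑.card) +
          2 * (𝓑.card * (ε * (2 * N) / W))) :=
          mul_le_mul_of_nonneg_left (by linarith) (by positivity)
      _ = ((𝓑.card : ℝ) / N) * (8 * ε / W) := by field_simp; ring
  have h8 := mul_le_mul_of_nonneg_left h6 (show 0 ≤ (N : ℝ)⁻¹ * (N : ℝ)⁻¹ by positivity)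
  have h9 := mul_le_mul_of_nonneg_left h4 (show 0 ≤ (N : ℝ)⁻¹ by positivity)
  have h10 := mul_le_mul_of_nonneg_left h9 (show 0 ≤ (𝓑.card : ℝ) / N by positivity)
  rw [mul_sub] at h8 ⊢
  linarith

end Pool.Agent.Helper31.MA2
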