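import Pool.Agent.Helper31.MA2.Low

/-! The lower bound for the conditional correlations. -/

set_option autoImplicit false
set_option linter.unusedSectionVars false

namespace Pool.Agent.Helper31.MA2

open Finset Filter Topology MeasureTheory ProbabilityTheory
open scoped InnerProductSpace ENNReal
open Pool.Agent.K7.H83.MA

variable {X : Type*} [MeasurableSpace X] [StandardBorelSpace X] {μ : Measure X}
  [IsProbabilityMeasure μ]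
variable {r : ℕ} {c : ℕ → Fin r} {T : ℕ → X → X}

theorem koop_one (h : Sys c μ T) {k : ℕ} (hk : 0 < k) :
    koop μ T k (bl μ (rc fun _ : X => (1 : ℝ))) = bl μ (rc fun _ : X => (1 : ℝ)) := by
  rw [koop_bl (h.mp k hk) RM.one.bm]
  rfl

theorem one_mem_IV (h : Sys c μ T) {q : Fin r → ℕ} (hq : ∀ i, 0 < q i) :
    bl μ (rc fun _ : X => (1 : ℝ)) ∈ IV (koop μ T) q := by
  rw [mem_IV]
  exact fun i => koop_one h (hq i)

theorem norm_one_bl : ‖bl μ (rc fun _ : X => (1 : ℝ))‖ = 1 := by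
  have h1 := inner_rc (μ := μ) (RM.one (X := X)) RM.one
  simp only [mul_one, integral_const, probReal_univ, smul_eq_mul] at h1
  have h5 : ((‖bl μ (rc fun _ : X => (1 : ℝ))‖ ^ 2 : ℝ) : ℂ) =
      ⟪bl μ (rc fun _ : X => (1 : ℝ)), bl μ (rc fun _ : X => (1 : ℝ))⟫_ℂ := by
    rw [inner_self_eq_norm_sq_to_K]; norm_cast
  rw [h1] at h5
  have h2 : ‖bl μ (rc fun _ : X => (1 : ℝ))‖ ^ 2 = 1 := Complex.ofReal_injective h5
  have h3 := norm_nonneg (bl μ (rc fun _ : X => (1 : ℝ)))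
  nlinarith

theorem low_V (h : Sys c μ T) {φ f₀ : X → ℝ} (hφ : RM φ) (hf : RM f₀)
    (horth : ∀ y, NPs (koop μ T) y → ⟪y, bl μ (rc φ) - bl μ (rc f₀)⟫_ℂ = 0)
    {g : Lp ℂ 2 μ} {ε : ℝ} (hε : 0 < ε) (hfg : ‖bl μ (rc f₀) - g‖ ≤ ε) {Qa W : ℕ} (hW : 0 < W)
    (hnps : FewBad (koop μ T) g ε Qa W)
    (hlow : ∃ N₀ : ℕ, ∀ N : ℕ, N₀ ≤ N → (N : ℝ) / (2 * W) ≤ (labu c W N 1 1).card)
    {q : Fin r → ℕ} (hq : ∀ i, 0 < q i) {α : ℝ} (hα : α = ∫ x, f₀ x * φ x * f₀ x ∂μ)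
    (hα7 : 7 * ε ≤ α) :
    ∃ N₀ : ℕ, ∀ N : ℕ, N₀ ≤ N → (α - 7 * ε) ^ 2 * (labu c W N 1 1).card ≤
      ∑ m ∈ labu c W N 1 1,
        ‖⟪bl μ (rc fun _ => 1), PI (koop μ T) q (bl μ (rc (kf T f₀ φ m)))⟫_ℂ‖ ^ 2 := by
  have hWr : (0 : ℝ) < W := by exact_mod_cast hW
  set D := bl μ (rc φ) - bl μ (rc f₀) with hD
  set b : Lp ℂ 2 μ := bl μ (rc fun x => f₀ x * φ x) with hb
  have hb1 : ‖b‖ ≤ 1 := (hf.mul hφ).norm
  obtain ⟨N₁, hN₁⟩ := (Metric.tendsto_atTop.1 (ape_B1 c W hW h.FG horth (1 : (ZMod W)ˣ)))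
    (ε / (2 * W)) (by positivity)
  obtain ⟨N₂, hN₂⟩ := hnps 1 (Nat.coprime_one_left W) rfl
  obtain ⟨N₃, hN₃⟩ := hlow
  refine ⟨max (max N₁ N₂) (max N₃ 1), fun N hN => ?_⟩
  have hN1 : N₁ ≤ N := (le_max_left _ _).trans ((le_max_left _ _).trans hN)
  have hN2 : N₂ ≤ N := (le_max_right _ _).trans ((le_max_left _ _).trans hN)
  have hN3 : N₃ ≤ N := (le_max_left _ _).trans ((le_max_right _ _).trans hN)
  have hN0 : 0 < N := (le_max_right _ _).trans ((le_max_right _ _).trans hN)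
  have hNr : (0 : ℝ) < N := by exact_mod_cast hN0
  have h1 := hN₁ N hN1
  have h2 := hN₂ N hN2
  have h3 := hN₃ N hN3
  set 𝓐 := labu c W N 1 1 with h𝓐
  rw [dist_zero_right, norm_smul, norm_inv, Complex.norm_natCast, inv_mul_lt_iff₀ hNr] at h1
  have hmA : ∀ m ∈ 𝓐, (0 < m ∧ m ≤ N) ∧ m ≡ 1 [MOD W] := fun m hm =>
    ⟨((mem_labu c W).1 hm).1, labu_mod c hm⟩
  have e1 : ∀ m ∈ 𝓐, ⟪bl μ (rc fun _ => 1), PI (koop μ T) q (bl μ (rc (kf T f₀ φ m)))⟫_ℂ =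
      ((∫ x, kf T f₀ φ m x ∂μ : ℝ) : ℂ) := by
    intro m hm
    rw [← PI_self, PI_of_mem (one_mem_IV h hq), inner_rc RM.one (kf_RM h hf hφ (hmA m hm).1.1)]
    simp only [one_mul]
  have e2 : ∀ m ∈ 𝓐, ∫ x, kf T f₀ φ m x ∂μ =
      (⟪b, koop μ T m (bl μ (rc f₀))⟫_ℂ).re + (⟪b, koop μ T m D⟫_ℂ).re := by
    intro m hm
    have hm0 := (hmA m hm).1.1
    have hmm := (h.mp m hm0).measurable
    have h4 : koop μ T m (bl μ (rc φ)) = bl μ (rc fun x => φ (T m x)) := by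
      rw [koop_bl (h.mp m hm0) hφ.bm]; rfl
    have h5 : ⟪b, koop μ T m (bl μ (rc φ))⟫_ℂ = ((∫ x, kf T f₀ φ m x ∂μ : ℝ) : ℂ) := by
      rw [h4, hb, inner_rc (hf.mul hφ) (hφ.comp hmm)]
      rfl
    have h6 : (⟪b, koop μ T m (bl μ (rc φ))⟫_ℂ).re = ∫ x, kf T f₀ φ m x ∂μ := by
      rw [h5, Complex.ofReal_re]
    rw [← h6, hD, map_sub, inner_sub_right, Complex.sub_re]
    ring
  have e3 : ∀ m ∈ 𝓐, α - (2 * ε + badw (koop μ T) g (m + 0)) ≤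
      (⟪b, koop μ T m (bl μ (rc f₀))⟫_ℂ).re := by
    intro m hm
    have hm0 := (hmA m hm).1.1
    have h4 := koop_near h hfg hf.norm (k := m) hm0
    have h5 : (⟪b, bl μ (rc f₀)⟫_ℂ).re = α := by
      rw [hb, inner_rc (hf.mul hφ) hf, Complex.ofReal_re, hα]
    have h6 : koop μ T m (bl μ (rc f₀)) = bl μ (rc f₀) +
        (koop μ T m (bl μ (rc f₀)) - bl μ (rc f₀)) := by abel
    have h7 : ‖⟪b, koop μ T m (bl μ (rc f₀)) - bl μ (rc f₀)⟫_ℂ‖ ≤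
        ‖koop μ T m (bl μ (rc f₀)) - bl μ (rc f₀)‖ := by
      refine (norm_inner_le_norm _ _).trans ?_
      calc _ ≤ 1 * ‖koop μ T m (bl μ (rc f₀)) - bl μ (rc f₀)‖ :=
            mul_le_mul_of_nonneg_right hb1 (norm_nonneg _)
        _ = _ := one_mul _
    have h8 := (abs_le.1 ((Complex.abs_re_le_norm _).trans h7)).1
    rw [h6, inner_add_right, Complex.add_re, h5, add_zero]
    linarith
  have e4 : -(N * (ε / (2 * W))) ≤ ∑ m ∈ 𝓐, (⟪b, koop μ T m D⟫_ℂ).re := by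
    have h4 : ∑ m ∈ 𝓐, (⟪b, koop μ T m D⟫_ℂ).re = (⟪b, ∑ m ∈ 𝓐, koop μ T m D⟫_ℂ).re := by
      rw [inner_sum, Complex.re_sum]
    rw [h4]
    have h5 : ‖⟪b, ∑ m ∈ 𝓐, koop μ T m D⟫_ℂ‖ ≤ N * (ε / (2 * W)) := by
      refine (norm_inner_le_norm _ _).trans ?_
      calc _ ≤ 1 * ‖∑ m ∈ 𝓐, koop μ T m D‖ := mul_le_mul_of_nonneg_right hb1 (norm_nonneg _)
        _ = ‖∑ m ∈ 𝓐, koop μ T m D‖ := one_mul _
        _ ≤ _ := h1.le
    exact (abs_le.1 ((Complex.abs_re_le_norm _).trans h5)).1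
  have hA3 : (N : ℝ) / W ≤ 2 * 𝓐.card := by
    have : (N : ℝ) / W = 2 * (N / (2 * W)) := by field_simp
    rw [this]; linarith
  have hsum : (α - 7 * ε) * 𝓐.card ≤ ∑ m ∈ 𝓐, ∫ x, kf T f₀ φ m x ∂μ := by
    rw [Finset.sum_congr rfl e2, Finset.sum_add_distrib]
    have h4 := Finset.sum_le_sum e3
    simp only [Finset.sum_sub_distrib, Finset.sum_add_distrib, Finset.sum_const, nsmul_eq_mul]
      at h4
    have h5 := sum_bad (u := koop μ T) (g := g) (n := 0) hmA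
    have h6 : 2 * (nbad (koop μ T) g W 1 0 N : ℝ) ≤ 2 * (ε * (2 * 𝓐.card)) := by
      refine mul_le_mul_of_nonneg_left (h2.trans ?_) zero_le_two
      rw [mul_div_assoc]
      exact mul_le_mul_of_nonneg_left hA3 hε.le
    have h7 : N * (ε / (2 * W)) ≤ ε * 𝓐.card := by
      have : N * (ε / (2 * W)) = ε * (N / (2 * W)) := by ring
      rw [this]
      exact mul_le_mul_of_nonneg_left h3 hε.le
    nlinarith
  have hnn : 0 ≤ (α - 7 * ε) * 𝓐.card := mul_nonneg (by linarith) (Nat.cast_nonneg _)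
  have hsq : ((α - 7 * ε) * 𝓐.card) ^ 2 ≤ 𝓐.card * ∑ m ∈ 𝓐, (∫ x, kf T f₀ φ m x ∂μ) ^ 2 :=
    (pow_le_pow_left₀ hnn hsum 2).trans sq_sum_le_card_mul_sum_sq
  have hgoal : ∑ m ∈ 𝓐, ‖⟪bl μ (rc fun _ => 1), PI (koop μ T) q (bl μ (rc (kf T f₀ φ m)))⟫_ℂ‖ ^ 2 =
      ∑ m ∈ 𝓐, (∫ x, kf T f₀ φ m x ∂μ) ^ 2 := by
    refine Finset.sum_congr rfl fun m hm => ?_
    rw [e1 m hm, Complex.norm_real, Real.norm_eq_abs, sq_abs]
  rw [hgoal]
  rcases (Nat.cast_nonneg (α := ℝ) 𝓐.card).lt_or_eq with h4 | h4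
  · refine le_of_mul_le_mul_left ?_ h4
    refine le_trans (le_of_eq ?_) hsq
    ring
  · rw [← h4, mul_zero]
    exact Finset.sum_nonneg fun _ _ => sq_nonneg _

end Pool.Agent.Helper31.MA2
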