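import Pool.Agent.Helper31.MA2.Low2

/-! The averages are bounded from below. -/

set_option autoImplicit false
set_option linter.unusedSectionVars false

namespace Pool.Agent.Helper31.MA2

open Finset Filter Topology MeasureTheory ProbabilityTheory
open scoped InnerProductSpace ENNReal
open Pool.Agent.K7.H83.MA

section

variable {X : Type*} [MeasurableSpace X] {μ : Measure X} [IsProbabilityMeasure μ]

theorem clip_rc {a : X → ℝ} (ha : RM a) : clipL (bl μ (rc a)) = bl μ (rc a) := by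
  apply Lp.ext
  filter_upwards [clipL_coe (bl μ (rc a)), bl_coe ha.bm] with x h1 h2
  rw [h1, h2]
  unfold clip rc
  rw [Complex.ofReal_re, min_eq_right (ha.le x), max_eq_right (ha.nn x)]

theorem alpha_pos {φ f₀ : X → ℝ} (hφ : RM φ) (hf : RM f₀)
    (h1 : ⟪bl μ (rc f₀), bl μ (rc φ) - bl μ (rc f₀)⟫_ℂ = 0)
    (h2 : ⟪bl μ (rc fun _ => 1), bl μ (rc φ) - bl μ (rc f₀)⟫_ℂ = 0)
    (hpos : 0 < ∫ x, φ x ∂μ) : 0 < ∫ x, f₀ x * φ x * f₀ x ∂μ := by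
  have hR := (hf.mul hφ).mul hf
  have h0 : 0 ≤ ∫ x, f₀ x * φ x * f₀ x ∂μ := integral_nonneg fun x => hR.nn x
  rcases h0.lt_or_eq with h | h
  · exact h
  exfalso
  have e1 : (fun x => f₀ x * φ x * f₀ x) =ᵐ[μ] 0 :=
    (integral_eq_zero_iff_of_nonneg (fun x => hR.nn x) hR.integrable).1 h.symm
  have e2 : ∫ x, f₀ x * φ x ∂μ = 0 := by
    refine integral_eq_zero_of_ae ?_
    filter_upwards [e1] with x hx
    have h3 : f₀ x * φ x * f₀ x = 0 := hx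
    rcases mul_eq_zero.1 h3 with h4 | h4
    · exact h4
    · change f₀ x * φ x = 0
      rw [h4, zero_mul]
  rw [inner_sub_right, sub_eq_zero, inner_rc hf hφ, inner_rc hf hf, e2] at h1
  rw [inner_sub_right, sub_eq_zero, inner_rc RM.one hφ, inner_rc RM.one hf] at h2
  have h3 : ∫ x, f₀ x * f₀ x ∂μ = 0 := (Complex.ofReal_injective h1).symm
  have h4 : ∫ x, φ x ∂μ = ∫ x, f₀ x ∂μ := by
    have := Complex.ofReal_injective h2
    simpa only [one_mul] using this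
  have e3 : (fun x => f₀ x * f₀ x) =ᵐ[μ] 0 :=
    (integral_eq_zero_iff_of_nonneg (fun x => (hf.mul hf).nn x) (hf.mul hf).integrable).1 h3
  have h5 : ∫ x, f₀ x ∂μ = 0 := by
    refine integral_eq_zero_of_ae ?_
    filter_upwards [e3] with x hx
    exact mul_self_eq_zero.1 hx
  rw [h4, h5] at hpos
  exact lt_irrefl _ hpos

theorem alpha_le {φ f₀ : X → ℝ} (hφ : RM φ) (hf : RM f₀) : ∫ x, f₀ x * φ x * f₀ x ∂μ ≤ 1 := by
  have hR := (hf.mul hφ).mul hf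
  have h1 : ∫ x, f₀ x * φ x * f₀ x ∂μ ≤ ∫ _x : X, (1 : ℝ) ∂μ :=
    integral_mono hR.integrable (integrable_const _) hR.le
  simpa using h1

end

variable {X : Type*} [MeasurableSpace X] [StandardBorelSpace X] {μ : Measure X}
  [IsProbabilityMeasure μ]
variable {r : ℕ} {c : ℕ → Fin r} {T : ℕ → X → X}

theorem SN_re (h : Sys c μ T) {φ : X → ℝ} (N : ℕ) (f : Lp ℂ 2 μ) :
    (⟪bl μ (rc φ), SN μ T (rc φ) (rc φ) (rc φ) N f⟫_ℂ).re =
      ((N : ℝ)⁻¹ * (N : ℝ)⁻¹) * ∑ m ∈ Ioc 0 N, ∑ n ∈ Ioc 0 N,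
        (⟪bl μ (rc φ), mulB μ (ww T (rc φ) (rc φ) (rc φ) m n) (koop μ T (m + n) f)⟫_ℂ).re := by
  rw [SN_apply, inner_smul_right]
  have e1 : ((N : ℂ)⁻¹ * (N : ℂ)⁻¹) = (((N : ℝ)⁻¹ * (N : ℝ)⁻¹ : ℝ) : ℂ) := by push_cast; rfl
  rw [e1, Complex.re_ofReal_mul, inner_sum, Complex.re_sum]
  congr 1
  refine Finset.sum_congr rfl fun m _ => ?_
  rw [inner_sum, Complex.re_sum]

/-- the averages are bounded from below -/
theorem lower (h : Sys c μ T) {φ : X → ℝ} (hφ : RM φ) (hpos : 0 < ∫ x, φ x ∂μ) :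
    ∃ c₀ : ℝ, 0 < c₀ ∧ ∃ N₀ : ℕ, ∀ N : ℕ, N₀ ≤ N →
      c₀ ≤ (⟪bl μ (rc φ), SN μ T (rc φ) (rc φ) (rc φ) N (bl μ (rc φ))⟫_ℂ).re := by
  classical
  obtain ⟨π, hπ⟩ := exists_rep c
  obtain ⟨f₀, hfm, hf0, hf1, hfK, hforth⟩ := exists_proj (T := T) (bl μ (rc φ)) (clip_rc hφ)
  have hf : RM f₀ := ⟨hfm, hf0, hf1⟩
  have hfK' : bl μ (rc f₀) ∈ KK μ T := hfK
  have horthK : ∀ y ∈ KK μ T, ⟪y, bl μ (rc φ) - bl μ (rc f₀)⟫_ℂ = 0 := hforth
  have hNK : ∀ y : Lp ℂ 2 μ, NPs (koop μ T) y → y ∈ KK μ T := fun y hy =>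
    mem_KK.2 (subset_closure hy)
  have hone : NPs (koop μ T) (bl μ (rc fun _ : X => (1 : ℝ))) :=
    NPs_of_fix fun k hk => koop_one h hk
  have horth : ∀ y, NPs (koop μ T) y → ⟪y, bl μ (rc φ) - bl μ (rc f₀)⟫_ℂ = 0 := fun y hy =>
    horthK y (hNK y hy)
  set α : ℝ := ∫ x, f₀ x * φ x * f₀ x ∂μ with hα
  have hα0 : 0 < α := alpha_pos hφ hf (horthK _ hfK') (horth _ hone) hpos
  have hα1 : α ≤ 1 := alpha_le hφ hf
  set ε : ℝ := α ^ 2 / 64 with hεd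
  have hε : 0 < ε := by positivity
  obtain ⟨g, hg, hfg⟩ := Metric.mem_closure_iff.1 (mem_KK.1 hfK') ε hε
  rw [dist_eq_norm] at hfg
  obtain ⟨Qa, hQa, hfew⟩ := NPs.few hg hε
  obtain ⟨Q₁, hQ₁, hlab⟩ := labu_ge c
  obtain ⟨J, hJ⟩ := exists_nat_ge (max 2 (4 / α ^ 2))
  have hJ2 : 2 ≤ J := by exact_mod_cast (le_max_left _ _).trans hJ
  have hJ4 : 4 / α ^ 2 ≤ J := (le_max_right _ _).trans hJ
  have hJr : (0 : ℝ) < J := by exact_mod_cast (by omega : 0 < J)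
  have hJinv : 1 / (J : ℝ) ≤ α ^ 2 / 4 := by
    rw [div_le_iff₀ (by positivity)] at hJ4
    rw [div_le_div_iff₀ hJr (by norm_num)]
    linarith
  set Q₀ := Qa * Q₁ with hQ₀d
  have hQ₀ : 0 < Q₀ := Nat.mul_pos hQa hQ₁
  set W := Q₀ ^ J with hWd
  have hW : 0 < W := pow_pos hQ₀ J
  have hWr : (0 : ℝ) < W := by exact_mod_cast hW
  have hJ0 : J ≠ 0 := by omega
  have hQW : Q₀ ∣ W := dvd_pow_self Q₀ hJ0
  have hQaW : Qa ∣ W := (Dvd.intro _ rfl).trans hQW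
  have hQ₁W : Q₁ ∣ W := (Dvd.intro_left _ rfl).trans hQW
  obtain ⟨N₁, hN₁⟩ := hlab W hW hQ₁W
  have hlow : ∃ N₀ : ℕ, ∀ N : ℕ, N₀ ≤ N → (N : ℝ) / (2 * W) ≤ (labu c W N 1 1).card :=
    ⟨N₁, fun N hN => (hN₁ N hN).1⟩
  have hup : ∃ N₀ : ℕ, ∀ N : ℕ, N₀ ≤ N → ((labu c W N 1 1).card : ℝ) ≤ 2 * (N / W) :=
    ⟨N₁, fun N hN => (hN₁ N hN).2⟩
  have hFB := hfew W hW hQaW
  have hq : ∀ i, 0 < qq c W π i := by
    intro i
    unfold qq
    split_ifs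
    · exact pow_pos (hπ.pos i) _
    · exact one_pos
  -- numerology
  have hα64 : 7 * ε ≤ α * (7 / 64) := by
    rw [hεd]
    nlinarith
  have hα7 : 7 * ε ≤ α := by nlinarith
  have hβ : α ^ 2 * (3 / 4) ≤ (α - 7 * ε) ^ 2 := by
    have h1 : α * (57 / 64) ≤ α - 7 * ε := by linarith
    have h2 := pow_le_pow_left₀ (by positivity) h1 2
    nlinarith [sq_nonneg α]
  set ρ : ℝ := ((α - 7 * ε) ^ 2 - 1 / J) / 2 - 8 * ε with hρ
  have hρ0 : 0 < ρ := by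
    have h1 : 0 < α ^ 2 := by positivity
    have h2 : 8 * ε = α ^ 2 / 8 := by rw [hεd]; ring
    rw [hρ, h2]
    linarith
  -- the labels
  have hlabels : ∀ j ∈ Ico 1 J, ∃ d : ℝ, 0 < d ∧
      Tendsto (fun N : ℕ => ((lab c W N (Q₀ ^ j) 0).card : ℝ) / N) atTop (𝓝 d) := by
    intro j hj
    rw [mem_Ico] at hj
    refine lab_pos c hW hlow (pow_pos hQ₀ j) (sp_self c (pow_pos hQ₀ j) fun p hp hd => ?_)
    exact (hp.dvd_of_dvd_pow hd).trans hQW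
  choose! d hd0 hdens using hlabels
  obtain ⟨j₀, hj₀, hmin⟩ := Finset.exists_min_image (Ico 1 J) d ⟨1, mem_Ico.2 ⟨le_rfl, by omega⟩⟩
  set δ : ℝ := d j₀ / 2 with hδ
  have hδ0 : 0 < δ := by have := hd0 j₀ hj₀; positivity
  set η : ℝ := δ * ρ / (4 * W) with hη
  have hη0 : 0 < η := by positivity
  have E1 : ∀ᶠ N : ℕ in atTop, ∀ j ∈ Ico 1 J, δ ≤ ((lab c W N (Q₀ ^ j) 0).card : ℝ) / N := by
    rw [Filter.eventually_all_finset]
    intro j hj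
    have h1 : δ < d j := by
      have := hmin j hj
      have := hd0 j₀ hj₀
      rw [hδ]; linarith
    exact ((hdens j hj).eventually (lt_mem_nhds h1)).mono fun N hN => hN.le
  have E2 : ∀ᶠ N : ℕ in atTop, ∀ j ∈ Ico 1 J, (((lab c W N (Q₀ ^ j) 0).card : ℝ) / N) *
      ((N : ℝ)⁻¹ * ∑ m ∈ labu c W N 1 1, (⟪PI (koop μ T) (qq c W π) (bl μ (rc (kf T f₀ φ m))),
        koop μ T (Q₀ ^ j) (PI (koop μ T) (qq c W π) (bl μ (rc (kf T f₀ φ m))))⟫_ℂ).re -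
          8 * ε / W) - η ≤
      ((N : ℝ)⁻¹ * (N : ℝ)⁻¹) * ∑ m ∈ labu c W N 1 1, ∑ n ∈ lab c W N (Q₀ ^ j) 0,
        (⟪bl μ (rc φ), mulB μ (ww T (rc φ) (rc φ) (rc φ) m n)
          (koop μ T (m + n) (bl μ (rc f₀)))⟫_ℂ).re := by
    rw [Filter.eventually_all_finset]
    intro j hj
    have hj' := mem_Ico.1 hj
    have hj0 : j ≠ 0 := by omega
    obtain ⟨N₀, hN₀⟩ := step_h h hφ hf hε.le hfg.le hW hQaW hFB hup hπ (pow_pos hQ₀ j)
      (fun p hp hd => (hp.dvd_of_dvd_pow hd).trans (dvd_pow_self Q₀ hj0))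
      ((Dvd.intro _ rfl : Qa ∣ Q₀).trans (dvd_pow_self Q₀ hj0)) (hd0 j hj) (hdens j hj) η hη0
    exact eventually_atTop.2 ⟨N₀, hN₀⟩
  obtain ⟨N₃, hN₃⟩ := low_V h hφ hf horth hε hfg.le hW hFB hlow hq hα hα7
  have E4 : ∀ᶠ N : ℕ in atTop, ‖SN μ T (rc φ) (rc φ) (rc φ) N (bl μ (rc φ) - bl μ (rc f₀))‖ < η := by
    have h1 := (SN_orth1 h hφ.bm hφ.bm hφ.bm horth).norm
    rw [norm_zero] at h1
    exact h1.eventually (gt_mem_nhds hη0)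
  have key : ∀ᶠ N : ℕ in atTop, δ * ρ / (2 * W) ≤
      (⟪bl μ (rc φ), SN μ T (rc φ) (rc φ) (rc φ) N (bl μ (rc φ))⟫_ℂ).re := by
    filter_upwards [E1, E2, E4, eventually_ge_atTop N₃, eventually_ge_atTop N₁,
      eventually_ge_atTop 1] with N e1 e2 e4 e3 e5 e6
    have hNr : (0 : ℝ) < N := by exact_mod_cast e6
    have e3 := hN₃ N e3
    have e5 := (hN₁ N e5).1
    set 𝓐 := labu c W N 1 1 with h𝓐
    have hmA : ∀ m ∈ 𝓐, (0 < m ∧ m ≤ N) := fun m hm => ((mem_labu c W).1 hm).1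
    have hU : koop μ T Q₀ ∈ unitary (Lp ℂ 2 μ →L[ℂ] Lp ℂ 2 μ) := h.FG.uni Q₀ hQ₀
    obtain ⟨j, hj1, hjJ, hj⟩ := vdc hU (koop_one h hQ₀) norm_one_bl 𝓐
      (fun m => PI (koop μ T) (qq c W π) (bl μ (rc (kf T f₀ φ m))))
      (fun m hm => (PI_norm _ _).trans (kf_RM h hf hφ (hmA m hm).1).norm) J hJ2
      (((α - 7 * ε) ^ 2 - 1 / J) * 𝓐.card)
      (mul_nonneg (by linarith [sq_nonneg α]) (Nat.cast_nonneg _))
      (by
        refine le_trans (le_of_eq ?_) e3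
        ring)
    rw [← h.FG.pow hQ₀ j] at hj
    have hjm : j ∈ Ico 1 J := mem_Ico.2 ⟨hj1, hjJ⟩
    have e1 := e1 j hjm
    have e2 := e2 j hjm
    set 𝓑 := lab c W N (Q₀ ^ j) 0 with h𝓑
    have hnB : ∀ n ∈ 𝓑, (0 < n ∧ n ≤ N) := fun n hn => ((mem_lab c W).1 hn).1
    -- restriction to the labels
    have f1 : ∑ m ∈ 𝓐, ∑ n ∈ 𝓑, (⟪bl μ (rc φ), mulB μ (ww T (rc φ) (rc φ) (rc φ) m n)
          (koop μ T (m + n) (bl μ (rc f₀)))⟫_ℂ).re ≤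
        ∑ m ∈ Ioc 0 N, ∑ n ∈ Ioc 0 N, (⟪bl μ (rc φ), mulB μ (ww T (rc φ) (rc φ) (rc φ) m n)
          (koop μ T (m + n) (bl μ (rc f₀)))⟫_ℂ).re := by
      calc _ ≤ ∑ m ∈ 𝓐, ∑ n ∈ Ioc 0 N, (⟪bl μ (rc φ), mulB μ (ww T (rc φ) (rc φ) (rc φ) m n)
          (koop μ T (m + n) (bl μ (rc f₀)))⟫_ℂ).re := by
            refine Finset.sum_le_sum fun m hm => ?_
            refine Finset.sum_le_sum_of_subset_of_nonneg (fun n hn => mem_Ioc.2 (hnB n hn))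
              fun n hn _ => term_nn h hφ hf (hmA m hm).1 (mem_Ioc.1 hn).1
        _ ≤ _ := by
            refine Finset.sum_le_sum_of_subset_of_nonneg (fun m hm => mem_Ioc.2 (hmA m hm))
              fun m hm _ => Finset.sum_nonneg fun n hn =>
                term_nn h hφ hf (mem_Ioc.1 hm).1 (mem_Ioc.1 hn).1
    have f2 := mul_le_mul_of_nonneg_left f1 (show 0 ≤ (N : ℝ)⁻¹ * (N : ℝ)⁻¹ by positivity)
    rw [← SN_re h N (bl μ (rc f₀))] at f2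
    -- the projection
    have f3 : (⟪bl μ (rc φ), SN μ T (rc φ) (rc φ) (rc φ) N (bl μ (rc φ))⟫_ℂ).re =
        (⟪bl μ (rc φ), SN μ T (rc φ) (rc φ) (rc φ) N (bl μ (rc f₀))⟫_ℂ).re +
        (⟪bl μ (rc φ), SN μ T (rc φ) (rc φ) (rc φ) N (bl μ (rc φ) - bl μ (rc f₀))⟫_ℂ).re := by
      rw [map_sub, inner_sub_right, Complex.sub_re]
      ring
    have f4 : ‖⟪bl μ (rc φ), SN μ T (rc φ) (rc φ) (rc φ) N (bl μ (rc φ) - bl μ (rc f₀))⟫_ℂ‖ ≤ η := by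
      refine (norm_inner_le_norm _ _).trans ?_
      calc _ ≤ 1 * ‖SN μ T (rc φ) (rc φ) (rc φ) N (bl μ (rc φ) - bl μ (rc f₀))‖ :=
            mul_le_mul_of_nonneg_right hφ.norm (norm_nonneg _)
        _ ≤ η := by rw [one_mul]; exact e4.le
    have f5 := (abs_le.1 ((Complex.abs_re_le_norm _).trans f4)).1
    -- the main term
    have f6 : ρ / W ≤ (N : ℝ)⁻¹ * ∑ m ∈ 𝓐,
        (⟪PI (koop μ T) (qq c W π) (bl μ (rc (kf T f₀ φ m))),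
        koop μ T (Q₀ ^ j) (PI (koop μ T) (qq c W π) (bl μ (rc (kf T f₀ φ m))))⟫_ℂ).re -
          8 * ε / W := by
      have g0 : 0 ≤ (α - 7 * ε) ^ 2 - 1 / J := by linarith [sq_nonneg α]
      have g1 : ((α - 7 * ε) ^ 2 - 1 / J) * (N / (2 * W)) ≤
          ((α - 7 * ε) ^ 2 - 1 / J) * 𝓐.card := mul_le_mul_of_nonneg_left e5 g0
      have g2 := mul_le_mul_of_nonneg_left (g1.trans hj) (show 0 ≤ (N : ℝ)⁻¹ by positivity)
      have g3 : (N : ℝ)⁻¹ * (((α - 7 * ε) ^ 2 - 1 / J) * (N / (2 * W))) =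
          ((α - 7 * ε) ^ 2 - 1 / J) / 2 / W := by field_simp
      rw [g3] at g2
      rw [hρ, sub_div]
      linarith
    have f7 : δ * (ρ / W) ≤ ((𝓑.card : ℝ) / N) * ((N : ℝ)⁻¹ * ∑ m ∈ 𝓐,
        (⟪PI (koop μ T) (qq c W π) (bl μ (rc (kf T f₀ φ m))),
        koop μ T (Q₀ ^ j) (PI (koop μ T) (qq c W π) (bl μ (rc (kf T f₀ φ m))))⟫_ℂ).re -
          8 * ε / W) := mul_le_mul e1 f6 (by positivity) (by positivity)
    have f8 : δ * (ρ / W) = 4 * η := by rw [hη]; field_simp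
    have f9 : δ * ρ / (2 * W) = 2 * η := by rw [hη]; field_simp; norm_num
    rw [f3, f9]
    linarith
  obtain ⟨N₀, hN₀⟩ := eventually_atTop.1 key
  exact ⟨δ * ρ / (2 * W), by positivity, N₀, hN₀⟩

end Pool.Agent.Helper31.MA2
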