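import Pool.Agent.Helper31.MA2.Cnt
import Pool.Agent.K7.H83.MA.Per

/-! Vectors which are fixed by most of the integers of the classes `κ ≡ 1` of highly divisible
moduli. -/

set_option autoImplicit false
set_option linter.unusedSectionVars false

namespace Pool.Agent.Helper31.MA2

open Finset Filter Topology
open scoped InnerProductSpace
open Pool.Agent.K7.H83.MA
open Pool.Agent.Y868.VR (cm cm_prime cm_one cm_mul)

variable {H : Type*} [NormedAddCommGroup H] [InnerProductSpace ℂ H] [CompleteSpace H]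

open scoped Classical in
/-- strongly nearly periodic vectors: for every `ε` there is a modulus `Q₀` such that for every
multiple `W` of `Q₀` and every class `κ` coprime to `W`, `κ ≡ 1 mod Q₀`, the vector is fixed by all
`u k`, `k ≡ κ mod W`, up to a proportion `ε` -/
def NPs (u : ℕ → H →L[ℂ] H) (F : H) : Prop :=
  ∀ ε : ℝ, 0 < ε → ∃ Q₀ : ℕ, 0 < Q₀ ∧ ∀ W : ℕ, 0 < W → Q₀ ∣ W → ∀ κ : ℕ, Nat.Coprime κ W →
    κ ≡ 1 [MOD Q₀] → ∃ N₀ : ℕ, ∀ N : ℕ, N₀ ≤ N →
      (((Ioc 0 N).filter fun k => k ≡ κ [MOD W] ∧ u k F ≠ F).card : ℝ) ≤ ε * N / W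

/-- the strongly nearly periodic vectors form a subspace -/
theorem NPs_of_two {u : ℕ → H →L[ℂ] H} {F G K : H} (hF : NPs u F) (hG : NPs u G)
    (h : ∀ k, u k F = F → u k G = G → u k K = K) : NPs u K := by
  classical
  intro ε hε
  obtain ⟨Q₁, hQ₁, h1⟩ := hF (ε / 2) (by positivity)
  obtain ⟨Q₂, hQ₂, h2⟩ := hG (ε / 2) (by positivity)
  refine ⟨Q₁ * Q₂, Nat.mul_pos hQ₁ hQ₂, fun W hW hd κ hκ hκ1 => ?_⟩
  obtain ⟨N₁, h3⟩ := h1 W hW ((Dvd.intro _ rfl).trans hd) κ hκ (hκ1.of_mul_right Q₂)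
  obtain ⟨N₂, h4⟩ := h2 W hW ((Dvd.intro_left _ rfl).trans hd) κ hκ (hκ1.of_mul_left Q₁)
  refine ⟨max N₁ N₂, fun N hN => ?_⟩
  have h5 := h3 N ((le_max_left _ _).trans hN)
  have h6 := h4 N ((le_max_right _ _).trans hN)
  have h7 : ((Ioc 0 N).filter fun k => k ≡ κ [MOD W] ∧ u k K ≠ K) ⊆
      ((Ioc 0 N).filter fun k => k ≡ κ [MOD W] ∧ u k F ≠ F) ∪
      ((Ioc 0 N).filter fun k => k ≡ κ [MOD W] ∧ u k G ≠ G) := by
    intro k hk
    rw [mem_filter] at hk
    rw [mem_union, mem_filter, mem_filter]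
    by_cases h8 : u k F = F
    · right
      refine ⟨hk.1, hk.2.1, fun h9 => hk.2.2 (h k h8 h9)⟩
    · exact Or.inl ⟨hk.1, hk.2.1, h8⟩
  have h8 : (((Ioc 0 N).filter fun k => k ≡ κ [MOD W] ∧ u k K ≠ K).card : ℝ) ≤
      (((Ioc 0 N).filter fun k => k ≡ κ [MOD W] ∧ u k F ≠ F).card : ℝ) +
      (((Ioc 0 N).filter fun k => k ≡ κ [MOD W] ∧ u k G ≠ G).card : ℝ) := by
    have := (Finset.card_le_card h7).trans (Finset.card_union_le _ _)
    exact_mod_cast this
  calc _ ≤ ε / 2 * N / W + ε / 2 * N / W := h8.trans (add_le_add h5 h6)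
    _ = ε * N / W := by ring

theorem NPs_of_one {u : ℕ → H →L[ℂ] H} {F K : H} (hF : NPs u F)
    (h : ∀ k, u k F = F → u k K = K) : NPs u K :=
  NPs_of_two hF hF fun k h1 _ => h k h1

theorem NPs_zero (u : ℕ → H →L[ℂ] H) : NPs u 0 := by
  classical
  intro ε hε
  refine ⟨1, one_pos, fun W hW _ κ _ _ => ⟨0, fun N _ => ?_⟩⟩
  have : ((Ioc 0 N).filter fun k => k ≡ κ [MOD W] ∧ u k (0 : H) ≠ 0) = ∅ := by
    rw [Finset.eq_empty_iff_forall_notMem]
    intro k hk
    rw [mem_filter] at hk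
    exact hk.2.2 (map_zero _)
  rw [this, Finset.card_empty]
  push_cast
  positivity

/-- the subspace of the strongly nearly periodic vectors -/
def NPsub (u : ℕ → H →L[ℂ] H) : Submodule ℂ H where
  carrier := {F | NPs u F}
  add_mem' := fun {a b} ha hb => NPs_of_two ha hb fun k h1 h2 => by rw [map_add, h1, h2]
  zero_mem' := NPs_zero u
  smul_mem' := fun a {b} hb => NPs_of_one hb fun k h1 => by rw [map_smul, h1]

theorem mem_NPsub {u : ℕ → H →L[ℂ] H} {F : H} : F ∈ NPsub u ↔ NPs u F := Iff.rfl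

theorem NPs_of_fix {u : ℕ → H →L[ℂ] H} {F : H} (h : ∀ k, 0 < k → u k F = F) : NPs u F := by
  classical
  intro ε hε
  refine ⟨1, one_pos, fun W hW _ κ _ _ => ⟨0, fun N _ => ?_⟩⟩
  have : ((Ioc 0 N).filter fun k => k ≡ κ [MOD W] ∧ u k F ≠ F) = ∅ := by
    rw [Finset.eq_empty_iff_forall_notMem]
    intro k hk
    rw [mem_filter, mem_Ioc] at hk
    exact hk.2.2 (h k hk.1.1)
  rw [this, Finset.card_empty]
  push_cast
  positivity

section

variable {r : ℕ} (c : ℕ → Fin r) (Q : ℕ)

/-- no prime factor in `E` -/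
theorem prt_one (E : ℕ → Prop) {n : ℕ} (hn : 0 < n) (h : ∀ p, p.Prime → E p → ¬ p ∣ n) :
    prt E n = 1 := by
  classical
  have h1 := prt_dvd E hn
  by_contra h2
  obtain ⟨p, hp, hpd⟩ := Nat.exists_prime_and_dvd h2
  have h3 : prt E n = ∏ p ∈ n.primeFactors.filter E, p ^ n.factorization p := by
    unfold prt Pool.Agent.K7.H83.MA.ext Finsupp.prod
    rw [Nat.support_factorization, Finset.prod_filter]
    refine Finset.prod_congr rfl fun p _ => ?_
    by_cases hpE : E p <;> simp [hpE]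
  have h4 : n.primeFactors.filter E = ∅ := by
    rw [Finset.eq_empty_iff_forall_notMem]
    intro q hq
    rw [mem_filter, Nat.mem_primeFactors] at hq
    exact h q hq.1.1 hq.2 hq.1.2.1
  rw [h4, Finset.prod_empty] at h3
  exact h2 h3

theorem eig_NPs (hQ : 0 < Q) {u : ℕ → H →L[ℂ] H} (hu : FG c u) {π : Fin r → ℕ} (hπ : Rep c π)
    (ψ : AddChar (Additive (ZMod Q)ˣ) ℂ) (z : Fin r → ℂ)
    (hsp : ∀ i, Big c i → Spa (fun p => c p = i ∧ bu c Q ψ p * z i ≠ 1)) {y : H}
    (hy : ∀ i, Big c i → u (π i) y = z i • y) : NPs u y := by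
  classical
  set E : ℕ → Prop := fun p => bu c Q ψ p * z (c p) ≠ 1 with hEdef
  have hEsp : ∀ p, ¬ E p → ¬ Sp c Q p := by
    intro p hp hs
    apply hp
    rw [hEdef]
    simp only [bu, if_pos hs, zero_mul]
    exact zero_ne_one
  have hcop : ∀ p, p.Prime → ¬ E p → Nat.Coprime p Q := fun p hp h =>
    cop_of c Q hp (hEsp p h)
  have hSpa : Spa E := by
    have h1 : ∀ i : Fin r, Spa (fun p => Big c i ∧ (c p = i ∧ bu c Q ψ p * z i ≠ 1)) := by
      intro i
      by_cases hi : Big c i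
      · exact (hsp i hi).mono fun p hp => hp.2
      · unfold Spa
        refine summable_zero.congr fun p => ?_
        rw [if_neg (fun h => hi h.1)]
    refine ((spa_Sp c Q hQ).or (Spa.ex h1)).mono fun p hp => ?_
    by_cases hs : Sp c Q p
    · exact Or.inl hs
    · right
      have hb : Big c (c p) := by
        by_contra h2; exact hs (Or.inl h2)
      exact ⟨c p, hb, rfl, hp⟩
  -- the formula
  have hform : ∀ n, 0 < n → u n y = ψ (-(Additive.ofMul (up Q E n))) • u (prt E n) y := by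
    intro n hn
    induction n using Nat.recOnMul with
    | zero => omega
    | one =>
      unfold up prt
      rw [ext_one, ext_one, ofMul_one, neg_zero, AddChar.map_zero_eq_one, one_smul]
    | prime p hp =>
      unfold up prt
      rw [ext_prime _ hp, ext_prime _ hp]
      by_cases h : E p
      · rw [dif_neg (fun h1 => h1.2 h), if_pos h, ofMul_one, neg_zero, AddChar.map_zero_eq_one,
          one_smul]
      · have hs := hEsp p h
        have hb : Big c (c p) := by
          by_contra h2; exact hs (Or.inl h2)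
        rw [dif_pos ⟨hcop p hp h, h⟩, if_neg h, hu.one]
        have h1 : u p = u (π (c p)) := hu.fg p _ hp (hπ.prime _ hb) (hπ.col _ hb).symm
        rw [h1, hy _ hb]
        have h2 : bu c Q ψ p * z (c p) = 1 := by
          by_contra h3; exact h h3
        unfold bu at h2
        rw [if_neg hs, un_prime c Q hp, dif_pos ⟨hcop p hp h, hs⟩] at h2
        have h3 : ψ (-(Additive.ofMul (ZMod.unitOfCoprime p (hcop p hp h)))) = z (c p) := by
          have h4 : ψ (-(Additive.ofMul (ZMod.unitOfCoprime p (hcop p hp h)))) *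
              ψ (Additive.ofMul (ZMod.unitOfCoprime p (hcop p hp h))) = 1 := by
            rw [← AddChar.map_add_eq_mul, neg_add_cancel, AddChar.map_zero_eq_one]
          calc ψ (-(Additive.ofMul (ZMod.unitOfCoprime p (hcop p hp h))))
              = ψ (-(Additive.ofMul (ZMod.unitOfCoprime p (hcop p hp h)))) *
                (ψ (Additive.ofMul (ZMod.unitOfCoprime p (hcop p hp h))) * z (c p)) := by
                rw [h2, mul_one]
            _ = z (c p) := by rw [← mul_assoc, h4, one_mul]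
        rw [h3]; rfl
    | mul a b ha hb =>
      have h1 : 0 < a := Nat.pos_of_mul_pos_right hn
      have h2 : 0 < b := Nat.pos_of_mul_pos_left hn
      have h3 : up Q E (a * b) = up Q E a * up Q E b := ext_mul _ h1 h2
      rw [h3, prt_mul E h1 h2, hu.mul a b h1 h2, hu.mul _ _ (prt_pos E h1) (prt_pos E h2),
        ofMul_mul, neg_add, AddChar.map_add_eq_mul]
      change u a (u b y) = _
      rw [hb h2, map_smul]
      have h4 : u a (u (prt E b) y) = u (prt E b) (u a y) := by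
        have := hu.comm h1 (prt_pos E h2)
        exact congrArg (fun A : H →L[ℂ] H => A y) this
      rw [h4, ha h1, map_smul, smul_smul, mul_comm]
      have h5 : u (prt E b) (u (prt E a) y) = (u (prt E a) * u (prt E b)) y := by
        have := hu.comm (prt_pos E h2) (prt_pos E h1)
        exact congrArg (fun A : H →L[ℂ] H => A y) this
      rw [h5]
  intro ε hε
  obtain ⟨Q₀, hQ₀, hcnt⟩ := cnt hSpa ε hε
  refine ⟨Q * Q₀, Nat.mul_pos hQ hQ₀, fun W hW hd κ hκ hκ1 => ?_⟩
  obtain ⟨N₀, hN₀⟩ := hcnt W hW ((Dvd.intro_left _ rfl).trans hd) κ hκ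
  refine ⟨N₀, fun N hN => ?_⟩
  refine le_trans ?_ (hN₀ N hN)
  refine Nat.cast_le.2 (Finset.card_le_card ?_)
  intro k hk
  rw [mem_filter, mem_Ioc] at hk ⊢
  refine ⟨hk.1, hk.2.1, ?_⟩
  by_contra hno
  push Not at hno
  apply hk.2.2
  have h1 : prt E k = 1 := prt_one E hk.1.1 fun p hp hE => hno p hp hE
  have h2 : fr E k = k := by
    have := prt_fr E hk.1.1
    rw [h1, one_mul] at this
    exact this.symm
  have h3 : up Q E k = 1 := by
    apply Units.ext
    rw [← fr_up Q E hcop hk.1.1, h2, Units.val_one]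
    have h4 : k ≡ 1 [MOD Q] := by
      have h5 : k ≡ κ [MOD Q] := hk.2.1.of_dvd ((Dvd.intro _ rfl).trans hd)
      exact h5.trans (hκ1.of_mul_right Q₀)
    have h5 := (ZMod.natCast_eq_natCast_iff _ _ _).2 h4
    rw [h5, Nat.cast_one]
  rw [hform k hk.1.1, h1, h3, ofMul_one, neg_zero, AddChar.map_zero_eq_one, one_smul, hu.one]
  rfl

end

end Pool.Agent.Helper31.MA2
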