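import Pool.Agent.Helper31.MA2.Ape2
import Pool.Agent.K7.H83.MA.Main

/-! The averages vanish on the vectors orthogonal to the strongly nearly periodic ones; the limits of
the averages over two labels. -/

set_option autoImplicit false
set_option linter.unusedSectionVars false

namespace Pool.Agent.Helper31.MA2

open Finset Filter Topology MeasureTheory ProbabilityTheory
open scoped InnerProductSpace ENNReal
open Pool.Agent.K7.H83.MA

variable {X : Type*} [MeasurableSpace X] [StandardBorelSpace X] {μ : Measure X}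
  [IsProbabilityMeasure μ]
variable {r : ℕ} {c : ℕ → Fin r} {T : ℕ → X → X}

/-- the averages vanish on the vectors orthogonal to the strongly nearly periodic ones -/
theorem SN_orth1 (h : Sys c μ T) {F1 F2 F4 : X → ℂ} (h1 : BM F1) (h2 : BM F2) (h4 : BM F4)
    {F : Lp ℂ 2 μ} (hF : ∀ y, NPs (koop μ T) y → ⟪y, F⟫_ℂ = 0) :
    Tendsto (fun N => SN μ T F1 F2 F4 N F) atTop (𝓝 0) := by
  classical
  obtain ⟨C1, hC1, hF1⟩ := h1.2
  obtain ⟨C2, hC2, hF2⟩ := h2.2
  obtain ⟨C4, hC4, hF4⟩ := h4.2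
  obtain ⟨i, hi⟩ := exists_big c
  have hape := ape_of_orth1 c h.FG hF
  have hv : ApeS (fun k => koop μ T k F) := by
    intro Q hQ a
    refine (hape Q hQ a).congr fun N => ?_
    congr 1
    refine Finset.sum_congr ?_ fun _ _ => rfl
    ext k
    simp only [mem_filter]
  have hmain := tk_main (v := fun k => koop μ T k F) (D := ‖F‖)
    (fun k hk => (koop_norm (h.mp k hk) F).le) hv hi
    (fun m n => mulB μ (ww T F1 F2 F4 m n)) (B := C1 * (C2 * C4)) (by positivity)
    (fun m n x hm hn => mulB_norm (ww_BM h h1 h2 h4 hm hn) (ww_bound hF1 hF2 hF4 hC1 hC2 m n) x)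
    (fun p q hp hq hpi hqi m n hm hn => by
      have hmn := Nat.mul_pos hm hn
      refine mulB_congr (ww_BM h h1 h2 h4 (Nat.mul_pos hp.pos hm) hn)
        (ww_BM h h1 h2 h4 (Nat.mul_pos hq.pos hm) hn) ?_
      have hpq := h.fg p q hp hq (hpi.trans hqi.symm)
      filter_upwards [h.mul p m hp.pos hm, h.mul q m hq.pos hm, h.mul p (m * n) hp.pos hmn,
        h.mul q (m * n) hq.pos hmn, (h.mp m hm).quasiMeasurePreserving.ae hpq,
        (h.mp (m * n) hmn).quasiMeasurePreserving.ae hpq] with x e1 e2 e3 e4 e5 e6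
      unfold ww
      rw [mul_assoc p m n, mul_assoc q m n, e1, e2, e3, e4, e5, e6])
  refine hmain.congr fun N => ?_
  rw [SN_apply]

/-- the limits of the averages over two labels -/
theorem lab_lim (h : Sys c μ T) {Q : ℕ} (hQ : 0 < Q) {π : Fin r → ℕ} (hπ : Rep c π)
    {s s' : ℕ} (hs0 : 0 < s) (hs0' : 0 < s') (g g' : GG r Q) {d d' : ℝ} (hd : 0 < d) (hd' : 0 < d')
    (hseq : Tendsto (fun N : ℕ => ((lab c Q N s g).card : ℝ) / N) atTop (𝓝 d))
    (hseq' : Tendsto (fun N : ℕ => ((lab c Q N s' g').card : ℝ) / N) atTop (𝓝 d'))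
    {F1 F2 F4 : X → ℂ} (h1 : BM F1) (h2 : BM F2) (h4 : BM F4) (b : Lp ℂ 2 μ) :
    Tendsto (fun N : ℕ => ((N : ℂ)⁻¹ * (N : ℂ)⁻¹) * ∑ m ∈ lab c Q N s g, ∑ n ∈ lab c Q N s' g',
        ⟪b, bl μ (ww T F1 F2 F4 m n)⟫_ℂ -
      ((((lab c Q N s' g').card : ℝ) / N : ℝ) : ℂ) * ((N : ℂ)⁻¹ * ∑ m ∈ lab c Q N s g,
        ⟪b, mulB μ (fun x => F1 (T m x)) (PI (koop μ T) (qq c Q π)
          (koop μ T (s' * tt Q π g') (bl μ (fun x => F2 x * F4 (T m x)))))⟫_ℂ)) atTop (𝓝 0) := by
  have ht : 0 < s * tt Q π g := Nat.mul_pos hs0 (tt_pos Q hπ.pos g)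
  have ht' : 0 < s' * tt Q π g' := Nat.mul_pos hs0' (tt_pos Q hπ.pos g')
  set t := s * tt Q π g with htd
  set t' := s' * tt Q π g' with htd'
  obtain ⟨d₁, hq1⟩ := seq_lab c Q hπ s g
  obtain ⟨d₁', hq1'⟩ := seq_lab c Q hπ s' g'
  have e1 : d₁ = d := tendsto_nhds_unique hq1.dens hseq
  have e1' : d₁' = d' := tendsto_nhds_unique hq1'.dens hseq'
  subst e1 e1'
  have hq := hq1.qpos
  have hr := fun n => hq1.pos n
  have hB1 : BM (fun x => F1 (T t x)) := h1.comp (h.mp t ht).measurable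
  have hB2 : BM (fun x => F2 (T t' x)) := h2.comp (h.mp t' ht').measurable
  have hB4 : BM (fun x => F4 (T (t * t') x)) := h4.comp (h.mp _ (Nat.mul_pos ht ht')).measurable
  have hmain := CN_VN h hq1 (inv_lab c Q hQ hπ s g h.FG)
    (inv_lab c Q hQ hπ s g (h.prod hq).FG) hd hq1' (inv_lab c Q hQ hπ s' g' h.FG)
    (inv_lab c Q hQ hπ s' g' (h.prod hq).FG) hd' hB1 hB2 hB4
  have hid : ∀ m n, ∀ N, m ∈ lab c Q N s g → n ∈ lab c Q N s' g' →
      bl μ (ww T F1 F2 F4 m n) = bl μ (fun x => F1 (T t (T (rr c Q π m) x)) *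
        (F2 (T t' (T (rr c Q π n) x)) *
          F4 (T (t * t') (T (rr c Q π m) (T (rr c Q π n) x))))) := by
    intro m n N hm hn
    rw [mem_lab] at hm hn
    have hu1 := u_lab c Q h.FG hπ hQ hm.1.1
    rw [hm.2.1, hm.2.2, ← htd] at hu1
    have hu2 := u_lab c Q h.FG hπ hQ hn.1.1
    rw [hn.2.1, hn.2.2, ← htd'] at hu2
    have hmm := (h.mp _ (hr m)).measurable
    have hmn := (h.mp _ (hr n)).measurable
    have e1 := ae_of_u h hm.1.1 ht (hr m) (by rw [hu1, h.FG.comm ht (hr m)]) h1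
    have e2 := ae_of_u h hn.1.1 ht' (hr n) (by rw [hu2, h.FG.comm ht' (hr n)]) h2
    have hu3 : koop μ T (m * n) = koop μ T (rr c Q π m * rr c Q π n) * koop μ T (t * t') := by
      rw [h.FG.mul m n hm.1.1 hn.1.1, hu1, hu2, h.FG.mul _ _ (hr m) (hr n),
        h.FG.mul _ _ ht ht']
      have c1 := h.FG.comm ht (hr m)
      have c2 := h.FG.comm ht' (hr n)
      have c3 := h.FG.comm ht (hr n)
      calc koop μ T t * koop μ T (rr c Q π m) * (koop μ T t' * koop μ T (rr c Q π n))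
          = (koop μ T t * koop μ T (rr c Q π m)) * (koop μ T t' * koop μ T (rr c Q π n)) := rfl
        _ = koop μ T (rr c Q π m) * (koop μ T t * koop μ T (rr c Q π n)) * koop μ T t' := by
            rw [c1, c2]; noncomm_ring
        _ = _ := by rw [c3]; noncomm_ring
    have e3 := ae_of_u h (Nat.mul_pos hm.1.1 hn.1.1) (Nat.mul_pos ht ht')
      (Nat.mul_pos (hr m) (hr n)) hu3 h4
    have e4 := h.mul _ _ (hr m) (hr n)
    refine bl_congr (ww_BM h h1 h2 h4 hm.1.1 hn.1.1) ((hB1.comp hmm).mul ((hB2.comp hmn).mul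
      ((hB4.comp hmm).comp hmn))) ?_
    filter_upwards [e1, e2, e3, e4] with x e1 e2 e3 e4
    unfold ww
    rw [e1, e2, e3, e4]
  have hCN : ∀ N : ℕ, ((N : ℂ)⁻¹ * (N : ℂ)⁻¹) • ∑ m ∈ lab c Q N s g, ∑ n ∈ lab c Q N s' g',
      bl μ (ww T F1 F2 F4 m n) = CN μ T (fun N => lab c Q N s g) (rr c Q π)
        (fun N => lab c Q N s' g') (rr c Q π) (fun x => F1 (T t x)) (fun x => F2 (T t' x))
        (fun x => F4 (T (t * t') x)) N := by
    intro N
    unfold CN avg
    rw [mul_smul]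
    congr 1
    rw [Finset.smul_sum]
    refine Finset.sum_congr rfl fun m hm => ?_
    rw [_root_.smul_apply, map_smul, _root_.sum_apply, map_sum]
    congr 1
    refine Finset.sum_congr rfl fun n hn => ?_
    have hmm := (h.mp _ (hr m)).measurable
    have hmn := (h.mp _ (hr n)).measurable
    unfold gv
    rw [hid m n N hm hn, koop_bl (h.mp _ (hr n)) (hB2.mul (hB4.comp hmm)),
      mulB_bl (hB1.comp hmm) ((hB2.comp hmn).mul ((hB4.comp hmm).comp hmn))]
  have hVN : ∀ N : ℕ, VN μ T (qq c Q π) (fun N => lab c Q N s g) (rr c Q π) (fun x => F1 (T t x))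
      (fun x => F2 (T t' x)) (fun x => F4 (T (t * t') x)) N = (N : ℂ)⁻¹ • ∑ m ∈ lab c Q N s g,
        mulB μ (fun x => F1 (T m x)) (PI (koop μ T) (qq c Q π)
          (koop μ T t' (bl μ (fun x => F2 x * F4 (T m x))))) := by
    intro N
    unfold VN
    congr 1
    refine Finset.sum_congr rfl fun m hm => ?_
    rw [mem_lab] at hm
    have hu1 := u_lab c Q h.FG hπ hQ hm.1.1
    rw [hm.2.1, hm.2.2, ← htd] at hu1
    have hmm := (h.mp _ (hr m)).measurable
    have hmm0 := (h.mp _ hm.1.1).measurable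
    have e1 := ae_of_u h hm.1.1 ht (hr m) (by rw [hu1, h.FG.comm ht (hr m)]) h1
    have hA : mulB μ (fun x => F1 (T t (T (rr c Q π m) x))) = mulB μ (fun x => F1 (T m x)) := by
      refine mulB_congr (hB1.comp hmm) (h1.comp hmm0) ?_
      filter_upwards [e1] with x hx
      rw [hx]
    rw [hA]
    congr 2
    rw [koop_bl (h.mp t' ht') (h2.mul (h4.comp hmm0))]
    unfold gv
    refine bl_congr (hB2.mul (hB4.comp hmm)) ((h2.mul (h4.comp hmm0)).comp
      (h.mp t' ht').measurable) ?_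
    have hu3 : koop μ T (m * t') = koop μ T (rr c Q π m) * koop μ T (t * t') := by
      rw [h.FG.mul m t' hm.1.1 ht', hu1, h.FG.mul _ _ ht ht']
      have c1 := h.FG.comm ht (hr m)
      rw [c1]; noncomm_ring
    have e3 := ae_of_u h (Nat.mul_pos hm.1.1 ht') (Nat.mul_pos ht ht') (hr m) hu3 h4
    have e4 := h.mul _ _ hm.1.1 ht'
    filter_upwards [e3, e4] with x e3 e4
    rw [← e3, e4]
  have h5 := Tendsto.inner (𝕜 := ℂ) (tendsto_const_nhds (x := b)) hmain
  rw [inner_zero_right] at h5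
  refine h5.congr fun N => ?_
  rw [← hCN N, hVN N, inner_sub_right, inner_smul_right, inner_smul_right, inner_smul_right,
    inner_sum, inner_sum]
  congr 2
  refine Finset.sum_congr rfl fun m _ => ?_
  rw [inner_sum]

end Pool.Agent.Helper31.MA2
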