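import Pool.Agent.Helper31.MA2.Vdc

/-! Positivity lemmas. -/

set_option autoImplicit false
set_option linter.unusedSectionVars false

namespace Pool.Agent.Helper31.MA2

open Finset Filter Topology MeasureTheory ProbabilityTheory
open scoped InnerProductSpace ENNReal
open Pool.Agent.K7.H83.MA

section labels

variable {r : ℕ} (c : ℕ → Fin r)

theorem sp_self {W n : ℕ} (hn : 0 < n) (h : ∀ p, p.Prime → p ∣ n → p ∣ W) : sp c W n = n := by
  classical
  induction n using Nat.recOnMul with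
  | zero => omega
  | one => exact sp_one c W
  | prime p hp => rw [sp_prime c W hp, if_pos (show Sp c W p from Or.inr (h p hp dvd_rfl))]
  | mul a b ha hb =>
    have h1 : 0 < a := Nat.pos_of_mul_pos_right hn
    have h2 : 0 < b := Nat.pos_of_mul_pos_left hn
    rw [sp_mul c W h1 h2, ha h1 (fun p hp hd => h p hp (hd.mul_right b)),
      hb h2 (fun p hp hd => h p hp (hd.mul_left a))]

theorem tt_zero (W : ℕ) (π : Fin r → ℕ) (hW : 0 < W) : tt W π (0 : GG r W) = 1 := by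
  have : NeZero (Nat.totient W) := ⟨(Nat.totient_pos.2 hW).ne'⟩
  unfold tt
  refine Finset.prod_eq_one fun i _ => ?_
  have h1 : ((0 : GG r W).2 i) = 0 := rfl
  rw [h1, ZMod.val_zero, pow_zero]

/-- the labels over a class -/
theorem labu_split {M : Type*} [AddCommMonoid M] {W : ℕ} (hW : 0 < W) :
    ∃ S : Finset (GG r W), ∀ (N : ℕ) (f : ℕ → M),
      ∑ n ∈ labu c W N 1 1, f n = ∑ g ∈ S, ∑ n ∈ lab c W N 1 g, f n := by
  classical
  have : NeZero W := ⟨hW.ne'⟩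
  have : NeZero (Nat.totient W) := ⟨(Nat.totient_pos.2 hW).ne'⟩
  refine ⟨(Finset.univ : Finset (GG r W)).filter (fun g => g.1 = 0), fun N f => ?_⟩
  have hmap : ∀ n ∈ labu c W N 1 1, gam c W n ∈
      (Finset.univ : Finset (GG r W)).filter (fun g => g.1 = 0) := by
    intro n hn
    rw [mem_labu] at hn
    rw [mem_filter]
    refine ⟨Finset.mem_univ _, ?_⟩
    unfold gam
    rw [hn.2.2, ofMul_one]
  rw [← Finset.sum_fiberwise_of_maps_to hmap]
  refine Finset.sum_congr rfl fun g hg => Finset.sum_congr ?_ fun _ _ => rfl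
  rw [mem_filter] at hg
  ext n
  rw [mem_filter, mem_labu, mem_lab]
  constructor
  · rintro ⟨⟨h1, h2, _⟩, h3⟩
    exact ⟨h1, h2, h3⟩
  · rintro ⟨h1, h2, h3⟩
    refine ⟨⟨h1, h2, ?_⟩, h3⟩
    have h4 : (gam c W n).1 = 0 := by rw [h3]; exact hg.2
    exact Additive.ofMul.injective (by rw [ofMul_one]; exact h4)

end labels

section count

variable {H : Type*} [NormedAddCommGroup H] [InnerProductSpace ℂ H] [CompleteSpace H]

open scoped Classical in
/-- the number of the bad integers of a class -/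
noncomputable def nbad (u : ℕ → H →L[ℂ] H) (g : H) (W κ n N : ℕ) : ℕ :=
  ((Ioc 0 N).filter fun m => m ≡ κ [MOD W] ∧ u (m + n) g ≠ g).card

open scoped Classical in
/-- the weight of the bad integers -/
noncomputable def badw (u : ℕ → H →L[ℂ] H) (g : H) (k : ℕ) : ℝ := if u k g ≠ g then 2 else 0

/-- few bad integers in the classes coprime to `W` and congruent to `1` modulo `Qa` -/
def FewBad (u : ℕ → H →L[ℂ] H) (g : H) (ε : ℝ) (Qa W : ℕ) : Prop :=
  ∀ κ : ℕ, Nat.Coprime κ W → κ ≡ 1 [MOD Qa] → ∃ N₀ : ℕ, ∀ N : ℕ, N₀ ≤ N →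
      (nbad u g W κ 0 N : ℝ) ≤ ε * N / W

theorem NPs.few {u : ℕ → H →L[ℂ] H} {g : H} (hg : NPs u g) {ε : ℝ} (hε : 0 < ε) :
    ∃ Qa : ℕ, 0 < Qa ∧ ∀ W : ℕ, 0 < W → Qa ∣ W → FewBad u g ε Qa W := by
  obtain ⟨Qa, h1, h2⟩ := hg ε hε
  exact ⟨Qa, h1, fun W hW hd κ h3 h4 => h2 W hW hd κ h3 h4⟩

theorem bad_count {u : ℕ → H →L[ℂ] H} {g : H} {ε : ℝ} {Qa W : ℕ} (hW : 0 < W) (hd : Qa ∣ W)
    (hnps : FewBad u g ε Qa W) :
    ∃ N₀ : ℕ, ∀ N : ℕ, N₀ ≤ N → ∀ n : ℕ, n ≤ N → Nat.Coprime (1 + n) W → 1 + n ≡ 1 [MOD Qa] →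
      (nbad u g W 1 n N : ℝ) ≤ ε * (2 * N) / W := by
  classical
  unfold FewBad at hnps
  choose! N₁ hN₁ using hnps
  refine ⟨(Finset.range W).sup N₁, fun N hN n hn hcop hmod => ?_⟩
  set κ := (1 + n) % W with hκ
  have hκ1 : κ ≡ 1 + n [MOD W] := Nat.mod_modEq _ _
  have hκ2 : Nat.Coprime κ W := by
    have h1 := hκ1.gcd_eq
    unfold Nat.Coprime at hcop ⊢
    rw [h1]; exact hcop
  have hκ3 : κ ≡ 1 [MOD Qa] := (hκ1.of_dvd hd).trans hmod
  have hκ4 : κ ∈ Finset.range W := Finset.mem_range.2 (Nat.mod_lt _ hW)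
  have h1 : N₁ κ ≤ N := (Finset.le_sup hκ4).trans hN
  have h2 := hN₁ κ hκ2 hκ3 (2 * N) (by omega)
  push_cast at h2
  refine le_trans ?_ h2
  refine Nat.cast_le.2 ?_
  unfold nbad
  refine Finset.card_le_card_of_injOn (fun m => m + n) (fun m hm => ?_) (fun a _ b _ hab => ?_)
  · rw [Finset.mem_coe, mem_filter, mem_Ioc] at hm
    beta_reduce
    rw [Finset.mem_coe, mem_filter, mem_Ioc, add_zero]
    obtain ⟨⟨h7, h8⟩, h9, h10⟩ := hm
    exact ⟨⟨by omega, by omega⟩, (h9.add_right n).trans hκ1.symm, h10⟩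
  · exact Nat.add_right_cancel hab

theorem sum_bad {u : ℕ → H →L[ℂ] H} {g : H} {W n N : ℕ} {A : Finset ℕ}
    (hA : ∀ m ∈ A, (0 < m ∧ m ≤ N) ∧ m ≡ 1 [MOD W]) :
    ∑ m ∈ A, badw u g (m + n) ≤ 2 * (nbad u g W 1 n N : ℝ) := by
  classical
  unfold badw nbad
  rw [← Finset.sum_filter, Finset.sum_const, nsmul_eq_mul, mul_comm]
  refine mul_le_mul_of_nonneg_left ?_ zero_le_two
  refine Nat.cast_le.2 (Finset.card_le_card ?_)
  intro m hm
  rw [mem_filter] at hm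
  rw [mem_filter, mem_Ioc]
  exact ⟨(hA m hm.1).1, (hA m hm.1).2, hm.2⟩

end count

variable {X : Type*} [MeasurableSpace X]

/-- measurable functions with values in `[0, 1]` -/
structure RM (a : X → ℝ) : Prop where
  meas : Measurable a
  nn : ∀ x, 0 ≤ a x
  le : ∀ x, a x ≤ 1

/-- a real function as a complex one -/
def rc (a : X → ℝ) (x : X) : ℂ := (a x : ℂ)

theorem rc_conj (a : X → ℝ) (x : X) : (starRingEnd ℂ) (rc a x) = rc a x := Complex.conj_ofReal _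

theorem RM.bd {a : X → ℝ} (ha : RM a) (x : X) : ‖rc a x‖ ≤ 1 := by
  unfold rc
  rw [Complex.norm_real, Real.norm_of_nonneg (ha.nn x)]
  exact ha.le x

theorem RM.bm {a : X → ℝ} (ha : RM a) : BM (rc a) :=
  ⟨Complex.measurable_ofReal.comp ha.meas, 1, zero_le_one, ha.bd⟩

theorem RM.mul {a b : X → ℝ} (ha : RM a) (hb : RM b) : RM (fun x => a x * b x) :=
  ⟨ha.meas.mul hb.meas, fun x => mul_nonneg (ha.nn x) (hb.nn x),
    fun x => mul_le_one₀ (ha.le x) (hb.nn x) (hb.le x)⟩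

theorem RM.comp {a : X → ℝ} (ha : RM a) {t : X → X} (ht : Measurable t) : RM (fun x => a (t x)) :=
  ⟨ha.meas.comp ht, fun _ => ha.nn _, fun _ => ha.le _⟩

theorem RM.one : RM (fun _ : X => (1 : ℝ)) := ⟨measurable_const, fun _ => zero_le_one, fun _ => le_rfl⟩

theorem RM.sub {a b : X → ℝ} (ha : RM a) (hb : RM b) (h : ∀ x, a x ≤ b x) :
    RM (fun x => b x - a x) :=
  ⟨hb.meas.sub ha.meas, fun x => sub_nonneg.2 (h x), fun x => by
    have := ha.nn x; have := hb.le x; linarith⟩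

section

variable {μ : Measure X} [IsProbabilityMeasure μ]

theorem RM.integrable {a : X → ℝ} (ha : RM a) : Integrable a μ :=
  (memLp_one_iff_integrable.1 (MemLp.of_bound ha.meas.aestronglyMeasurable 1
    (Eventually.of_forall fun x => by
      rw [Real.norm_of_nonneg (ha.nn x)]; exact ha.le x)))

theorem RM.norm {a : X → ℝ} (ha : RM a) : ‖bl μ (rc a)‖ ≤ 1 :=
  bl_norm_le ha.bm zero_le_one ha.bd

theorem inner_rc {a b : X → ℝ} (ha : RM a) (hb : RM b) :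
    ⟪bl μ (rc a), bl μ (rc b)⟫_ℂ = ((∫ x, a x * b x ∂μ : ℝ) : ℂ) := by
  rw [inner_bl ha.bm hb.bm, ← integral_complex_ofReal]
  refine integral_congr_ae (Eventually.of_forall fun x => ?_)
  beta_reduce
  rw [rc_conj]
  unfold rc
  push_cast
  rfl

theorem inner_rc_nn {a b : X → ℝ} (ha : RM a) (hb : RM b) :
    0 ≤ (⟪bl μ (rc a), bl μ (rc b)⟫_ℂ).re := by
  rw [inner_rc ha hb, Complex.ofReal_re]
  exact integral_nonneg fun x => mul_nonneg (ha.nn x) (hb.nn x)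

end

variable [StandardBorelSpace X] {μ : Measure X} [IsProbabilityMeasure μ]
variable {r : ℕ} {c : ℕ → Fin r} {T : ℕ → X → X}

theorem pos_PI (h : Sys c μ T) {q : Fin r → ℕ} (hq : ∀ i, 0 < q i) {a b : X → ℝ} (ha : RM a)
    (hb : RM b) : 0 ≤ (⟪bl μ (rc a), PI (koop μ T) q (bl μ (rc b))⟫_ℂ).re := by
  have h1 := rel_int_bl h hq ha.bm hb.bm
  have h2 : (fun x => (starRingEnd ℂ) (rc a x)) = rc a := by
    funext x; exact rc_conj a x
  rw [h2] at h1
  rw [← h1]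
  have h3 : ∫ z, rc a z.1 * rc b z.2 ∂(rel μ T q) =
      ((∫ z, a z.1 * b z.2 ∂(rel μ T q) : ℝ) : ℂ) := by
    rw [← integral_complex_ofReal]
    refine integral_congr_ae (Eventually.of_forall fun z => ?_)
    unfold rc
    push_cast
    rfl
  rw [h3, Complex.ofReal_re]
  exact integral_nonneg fun z => mul_nonneg (ha.nn _) (hb.nn _)

theorem mono_PI (h : Sys c μ T) {q : Fin r → ℕ} (hq : ∀ i, 0 < q i) {t : ℕ} (ht : 0 < t)
    {a b b' : X → ℝ} (ha : RM a) (hb : RM b) (hb' : RM b') (hle : ∀ x, b x ≤ b' x) :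
    (⟪bl μ (rc a), PI (koop μ T) q (koop μ T t (bl μ (rc b)))⟫_ℂ).re ≤
      (⟪bl μ (rc a), PI (koop μ T) q (koop μ T t (bl μ (rc b')))⟫_ℂ).re := by
  have hd := hb.sub hb' hle
  have h1 : bl μ (rc b') = bl μ (rc b) + bl μ (rc fun x => b' x - b x) := by
    rw [← bl_add hb.bm hd.bm]
    congr 1
    funext x
    unfold rc
    push_cast
    ring
  have h2 : 0 ≤ (⟪bl μ (rc a), PI (koop μ T) q (koop μ T t (bl μ (rc fun x => b' x - b x)))⟫_ℂ).re := by
    have h3 : koop μ T t (bl μ (rc fun x => b' x - b x)) =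
        bl μ (rc fun x => b' (T t x) - b (T t x)) := by
      rw [koop_bl (h.mp t ht) hd.bm]
      rfl
    rw [h3]
    exact pos_PI h hq ha (hd.comp (h.mp t ht).measurable)
  rw [h1, map_add, map_add, inner_add_right, Complex.add_re]
  linarith

/-- the terms of the averages are nonnegative -/
theorem term_nn (h : Sys c μ T) {φ f₀ : X → ℝ} (hφ : RM φ) (hf : RM f₀) {m n : ℕ} (hm : 0 < m)
    (hn : 0 < n) : 0 ≤ (⟪bl μ (rc φ), mulB μ (ww T (rc φ) (rc φ) (rc φ) m n)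
      (koop μ T (m + n) (bl μ (rc f₀)))⟫_ℂ).re := by
  have h1 := (h.mp (m + n) (by omega)).measurable
  rw [koop_bl (h.mp _ (by omega)) hf.bm, mulB_bl (ww_BM h hφ.bm hφ.bm hφ.bm hm hn)
    (hf.bm.comp h1)]
  have h2 : (fun x => ww T (rc φ) (rc φ) (rc φ) m n x * rc f₀ (T (m + n) x)) =
      rc (fun x => (φ (T m x) * (φ (T n x) * φ (T (m * n) x))) * f₀ (T (m + n) x)) := by
    funext x
    unfold ww rc
    push_cast
    ring
  rw [h2]
  refine inner_rc_nn hφ (RM.mul (RM.mul (hφ.comp (h.mp m hm).measurable)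
    (RM.mul (hφ.comp (h.mp n hn).measurable) (hφ.comp (h.mp _ (Nat.mul_pos hm hn)).measurable)))
    (hf.comp h1))

/-- comparison of the terms -/
theorem term_ge (h : Sys c μ T) {φ f₀ : X → ℝ} (hφ : RM φ) (hf : RM f₀) {m n : ℕ} (hm : 0 < m)
    (hn : 0 < n) : (⟪bl μ (rc fun x => f₀ x * φ x), bl μ (ww T (rc φ) (rc φ) (rc φ) m n)⟫_ℂ).re -
      ‖koop μ T (m + n) (bl μ (rc f₀)) - bl μ (rc f₀)‖ ≤
      (⟪bl μ (rc φ), mulB μ (ww T (rc φ) (rc φ) (rc φ) m n)
        (koop μ T (m + n) (bl μ (rc f₀)))⟫_ℂ).re := by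
  set f := bl μ (rc f₀) with hfd
  have hw := ww_BM h hφ.bm hφ.bm hφ.bm hm hn
  have h1 : ⟪bl μ (rc φ), mulB μ (ww T (rc φ) (rc φ) (rc φ) m n) f⟫_ℂ =
      ⟪bl μ (rc fun x => f₀ x * φ x), bl μ (ww T (rc φ) (rc φ) (rc φ) m n)⟫_ℂ := by
    rw [hfd, mulB_bl hw hf.bm, inner_bl hφ.bm (hw.mul hf.bm), inner_bl (hf.mul hφ).bm hw]
    refine integral_congr_ae (Eventually.of_forall fun x => ?_)
    beta_reduce
    rw [rc_conj, rc_conj]
    unfold rc
    push_cast
    ring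
  have h2 : koop μ T (m + n) f = f + (koop μ T (m + n) f - f) := by abel
  conv_rhs => rw [h2, map_add, inner_add_right, Complex.add_re, h1]
  have h3 : ‖⟪bl μ (rc φ), mulB μ (ww T (rc φ) (rc φ) (rc φ) m n) (koop μ T (m + n) f - f)⟫_ℂ‖ ≤
      ‖koop μ T (m + n) f - f‖ := by
    refine (norm_inner_le_norm _ _).trans ?_
    have h4 := hφ.norm (μ := μ)
    have h5 : ‖mulB μ (ww T (rc φ) (rc φ) (rc φ) m n) (koop μ T (m + n) f - f)‖ ≤
        1 * ‖koop μ T (m + n) f - f‖ :=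
      mulB_norm hw (fun x => by
        have := ww_bound (T := T) hφ.bd hφ.bd hφ.bd zero_le_one zero_le_one m n x
        simpa using this) _
    calc _ ≤ 1 * (1 * ‖koop μ T (m + n) f - f‖) :=
          mul_le_mul h4 h5 (norm_nonneg _) zero_le_one
      _ = _ := by ring
  have h4 := Complex.abs_re_le_norm
    (⟪bl μ (rc φ), mulB μ (ww T (rc φ) (rc φ) (rc φ) m n) (koop μ T (m + n) f - f)⟫_ℂ)
  have h5 := (abs_le.1 (h4.trans h3)).1
  linarith

theorem koop_near (h : Sys c μ T) {f g : Lp ℂ 2 μ} {ε : ℝ} (hfg : ‖f - g‖ ≤ ε) (hf : ‖f‖ ≤ 1)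
    {k : ℕ} (hk : 0 < k) :
    ‖koop μ T k f - f‖ ≤ 2 * ε + badw (koop μ T) g k := by
  have h0 : 0 ≤ ε := (norm_nonneg _).trans hfg
  unfold badw
  split_ifs with h1
  · have h2 := norm_sub_le (koop μ T k f) f
    rw [koop_norm (h.mp k hk)] at h2
    linarith
  · rw [not_not] at h1
    have h2 : koop μ T k f - f = koop μ T k (f - g) - (f - g) := by
      rw [map_sub, h1]; abel
    rw [h2]
    have h3 := norm_sub_le (koop μ T k (f - g)) (f - g)
    rw [koop_norm (h.mp k hk)] at h3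
    linarith

end Pool.Agent.Helper31.MA2
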