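import Pool.Agent.Helper31.MA2.Orth

/-! The projection of an indicator function onto the strongly nearly periodic functions. -/

set_option autoImplicit false
set_option linter.unusedSectionVars false

namespace Pool.Agent.Helper31.MA2

open Finset Filter Topology MeasureTheory ProbabilityTheory
open scoped InnerProductSpace ENNReal
open Pool.Agent.K7.H83.MA

/-- the nearest point of `[0, 1]` -/
noncomputable def clip (z : ℂ) : ℂ := ((max 0 (min 1 z.re) : ℝ) : ℂ)

theorem clip_lip : LipschitzWith 1 clip := by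
  refine LipschitzWith.of_dist_le_mul fun z w => ?_
  rw [NNReal.coe_one, one_mul]
  unfold clip
  rw [Complex.dist_eq, ← Complex.ofReal_sub, Complex.norm_real, Real.norm_eq_abs, Complex.dist_eq]
  have h1 := abs_max_sub_max_le_max 0 (min 1 z.re) 0 (min 1 w.re)
  have h2 := abs_min_sub_min_le_max 1 z.re 1 w.re
  rw [sub_self, abs_zero, max_eq_right (abs_nonneg (min 1 z.re - min 1 w.re))] at h1
  rw [sub_self, abs_zero, max_eq_right (abs_nonneg (z.re - w.re))] at h2
  have h3 : |z.re - w.re| ≤ ‖z - w‖ := by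
    rw [← Complex.sub_re]
    exact Complex.abs_re_le_norm _
  linarith

theorem clip_zero : clip 0 = 0 := by
  unfold clip; simp

variable {X : Type*} [MeasurableSpace X] {μ : Measure X}
variable {r : ℕ} {c : ℕ → Fin r} {T : ℕ → X → X}

/-- clipping in `L²` -/
noncomputable def clipL (f : Lp ℂ 2 μ) : Lp ℂ 2 μ := clip_lip.compLp clip_zero f

theorem clipL_coe (f : Lp ℂ 2 μ) : clipL f =ᵐ[μ] fun x => clip (f x) :=
  clip_lip.coeFn_compLp clip_zero f

theorem clipL_cont : Continuous (clipL : Lp ℂ 2 μ → Lp ℂ 2 μ) :=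
  clip_lip.continuous_compLp clip_zero

theorem clipL_sub (f g : Lp ℂ 2 μ) : ‖clipL f - clipL g‖ ≤ ‖f - g‖ := by
  have := clip_lip.norm_compLp_sub_le clip_zero f g
  rw [NNReal.coe_one, one_mul] at this
  exact this

theorem koop_clipL (k : ℕ) (f : Lp ℂ 2 μ) : koop μ T k (clipL f) = clipL (koop μ T k f) := by
  by_cases h : MeasurePreserving (T k) μ μ
  · apply Lp.ext
    filter_upwards [koop_coe h (clipL f), clipL_coe (koop μ T k f), koop_coe h f,
      h.quasiMeasurePreserving.ae (clipL_coe f)] with x h1 h2 h3 h4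
    rw [h1, h2, h3, h4]
  · unfold koop
    rw [dif_neg h]
    rfl

theorem clipL_NPs {y : Lp ℂ 2 μ} (hy : NPs (koop μ T) y) : NPs (koop μ T) (clipL y) :=
  NPs_of_one hy fun k h1 => by rw [koop_clipL, h1]

/-- the closed subspace generated by the strongly nearly periodic vectors -/
noncomputable def KK (μ : Measure X) (T : ℕ → X → X) : Submodule ℂ (Lp ℂ 2 μ) :=
  (NPsub (koop μ T)).topologicalClosure

instance : CompleteSpace (KK μ T) :=
  (Submodule.isClosed_topologicalClosure _).completeSpace_coe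

theorem mem_KK {y : Lp ℂ 2 μ} : y ∈ KK μ T ↔ y ∈ closure {F | NPs (koop μ T) F} := by
  unfold KK
  rw [← SetLike.mem_coe, Submodule.topologicalClosure_coe]
  rfl

theorem clipL_KK {y : Lp ℂ 2 μ} (hy : y ∈ KK μ T) : clipL y ∈ KK μ T := by
  rw [mem_KK] at hy ⊢
  exact map_mem_closure clipL_cont hy fun a ha => clipL_NPs ha

variable [IsProbabilityMeasure μ]

/-- the projection of a function with values in `[0, 1]` has values in `[0, 1]` -/
theorem exists_proj (F : Lp ℂ 2 μ) (hF : clipL F = F) :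
    ∃ f₀ : X → ℝ, Measurable f₀ ∧ (∀ x, 0 ≤ f₀ x) ∧ (∀ x, f₀ x ≤ 1) ∧
      bl μ (fun x => (f₀ x : ℂ)) ∈ KK μ T ∧
      ∀ y ∈ KK μ T, ⟪y, F - bl μ (fun x => (f₀ x : ℂ))⟫_ℂ = 0 := by
  set f : Lp ℂ 2 μ := (KK μ T).starProjection F with hf
  have hfK : f ∈ KK μ T := (KK μ T).starProjection_apply_mem F
  have horth : ∀ y ∈ KK μ T, ⟪y, F - f⟫_ℂ = 0 := fun y hy =>
    (Submodule.mem_orthogonal _ _).1 ((KK μ T).sub_starProjection_mem_orthogonal F) y hy
  have hclip : clipL f = f := by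
    have h1 : ‖F - clipL f‖ ≤ ‖F - f‖ := by
      conv_lhs => rw [← hF]
      exact clipL_sub F f
    have h2 : ⟪f - clipL f, F - f⟫_ℂ = 0 :=
      horth _ ((KK μ T).sub_mem hfK (clipL_KK hfK))
    have h3 : ‖F - clipL f‖ ^ 2 = ‖f - clipL f‖ ^ 2 + ‖F - f‖ ^ 2 := by
      have h4 := norm_add_sq_eq_norm_sq_add_norm_sq_of_inner_eq_zero (𝕜 := ℂ) (f - clipL f)
        (F - f) h2
      have h5 : f - clipL f + (F - f) = F - clipL f := by abel
      rw [h5] at h4
      nlinarith
    have h4 : ‖F - clipL f‖ ^ 2 ≤ ‖F - f‖ ^ 2 := pow_le_pow_left₀ (norm_nonneg _) h1 2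
    have h5 : ‖f - clipL f‖ ^ 2 ≤ 0 := by linarith
    have h6 : ‖f - clipL f‖ = 0 := by
      have := sq_nonneg ‖f - clipL f‖
      exact pow_eq_zero_iff (two_ne_zero) |>.1 (le_antisymm h5 this)
    rw [norm_eq_zero, sub_eq_zero] at h6
    exact h6.symm
  have hmeas : Measurable (f : X → ℂ) := (Lp.stronglyMeasurable f).measurable
  set f₀ : X → ℝ := fun x => max 0 (min 1 (f x).re) with hf₀
  have hf₀m : Measurable f₀ :=
    measurable_const.max (measurable_const.min (Complex.measurable_re.comp hmeas))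
  have hf₀0 : ∀ x, 0 ≤ f₀ x := fun x => le_max_left _ _
  have hf₀1 : ∀ x, f₀ x ≤ 1 := fun x => max_le zero_le_one (min_le_left _ _)
  have hBM : BM (fun x => (f₀ x : ℂ)) :=
    ⟨Complex.measurable_ofReal.comp hf₀m, 1, zero_le_one, fun x => by
      rw [Complex.norm_real, Real.norm_of_nonneg (hf₀0 x)]; exact hf₀1 x⟩
  have hbl : bl μ (fun x => (f₀ x : ℂ)) = f := by
    apply Lp.ext
    filter_upwards [bl_coe hBM, clipL_coe f] with x h1 h2
    rw [h1]
    rw [hclip] at h2
    exact h2.symm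
  refine ⟨f₀, hf₀m, hf₀0, hf₀1, ?_, ?_⟩
  · rw [hbl]; exact hfK
  · intro y hy
    rw [hbl]; exact horth y hy

end Pool.Agent.Helper31.MA2
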