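import Pool.Agent.Helper31.MA2.Proj

/-! A recurrence lemma for unitary operators; positive densities of labels. -/

set_option autoImplicit false
set_option linter.unusedSectionVars false

namespace Pool.Agent.Helper31.MA2

open Finset Filter Topology
open scoped InnerProductSpace
open Pool.Agent.K7.H83.MA

section

variable {H : Type*} [NormedAddCommGroup H] [InnerProductSpace ℂ H] [CompleteSpace H]

theorem uni_inner {U : H →L[ℂ] H} (hU : U ∈ unitary (H →L[ℂ] H)) (x y : H) :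
    ⟪U x, U y⟫_ℂ = ⟪x, y⟫_ℂ := by
  have h5 : star U * U = 1 := Unitary.star_mul_self_of_mem hU
  rw [← ContinuousLinearMap.adjoint_inner_right]
  have h6 : (ContinuousLinearMap.adjoint U) (U y) = (star U * U) y := rfl
  rw [h6, h5]; rfl

theorem uni_pow_inner {U : H →L[ℂ] H} (hU : U ∈ unitary (H →L[ℂ] H)) (x y : H) (j : ℕ) :
    ⟪(U ^ j) x, (U ^ j) y⟫_ℂ = ⟪x, y⟫_ℂ :=
  uni_inner (pow_mem hU j) x y

/-- a recurrence lemma (van der Corput) -/
theorem vdc {U : H →L[ℂ] H} (hU : U ∈ unitary (H →L[ℂ] H)) {e : H} (he : U e = e)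
    (hen : ‖e‖ = 1) {ι : Type*} (s : Finset ι) (y : ι → H) (hy : ∀ i ∈ s, ‖y i‖ ≤ 1) (J : ℕ)
    (hJ : 2 ≤ J) (κ : ℝ) (hκ : 0 ≤ κ)
    (hlow : κ + (s.card : ℝ) / J ≤ ∑ i ∈ s, ‖⟪e, y i⟫_ℂ‖ ^ 2) :
    ∃ h : ℕ, 1 ≤ h ∧ h < J ∧ κ ≤ ∑ i ∈ s, (⟪y i, (U ^ h) (y i)⟫_ℂ).re := by
  by_contra hcon
  push Not at hcon
  have hJ0 : (0 : ℝ) < J := by exact_mod_cast (by omega : 0 < J)
  have hepow : ∀ j : ℕ, (U ^ j) e = e := by
    intro j
    induction j with
    | zero => rfl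
    | succ j ih =>
      rw [pow_succ]
      change (U ^ j) (U e) = e
      rw [he, ih]
  -- the sums
  have h1 : ∀ i ∈ s, (J : ℝ) ^ 2 * ‖⟪e, y i⟫_ℂ‖ ^ 2 ≤
      ∑ j ∈ range J, ∑ l ∈ range J, (⟪(U ^ j) (y i), (U ^ l) (y i)⟫_ℂ).re := by
    intro i _
    set Z : H := ∑ j ∈ range J, (U ^ j) (y i) with hZ
    have h2 : ⟪e, Z⟫_ℂ = J * ⟪e, y i⟫_ℂ := by
      rw [hZ, inner_sum]
      have h3 : ∀ j ∈ range J, ⟪e, (U ^ j) (y i)⟫_ℂ = ⟪e, y i⟫_ℂ := by
        intro j _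
        conv_lhs => rw [← hepow j]
        exact uni_pow_inner hU e (y i) j
      rw [Finset.sum_congr rfl h3, Finset.sum_const, Finset.card_range, nsmul_eq_mul]
    have h3 : ‖⟪e, Z⟫_ℂ‖ ≤ ‖Z‖ := by
      have := norm_inner_le_norm (𝕜 := ℂ) e Z
      rwa [hen, one_mul] at this
    rw [h2, norm_mul, Complex.norm_natCast] at h3
    have h4 : ((J : ℝ) * ‖⟪e, y i⟫_ℂ‖) ^ 2 ≤ ‖Z‖ ^ 2 := pow_le_pow_left₀ (by positivity) h3 2
    rw [mul_pow] at h4
    refine h4.trans (le_of_eq ?_)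
    have h5 : ((‖Z‖ ^ 2 : ℝ) : ℂ) = ⟪Z, Z⟫_ℂ := by
      rw [inner_self_eq_norm_sq_to_K]; norm_cast
    have h6 : ‖Z‖ ^ 2 = (⟪Z, Z⟫_ℂ).re := by rw [← h5, Complex.ofReal_re]
    rw [h6]
    conv_lhs => rw [hZ, sum_inner]
    rw [Complex.re_sum]
    refine Finset.sum_congr rfl fun j _ => ?_
    rw [inner_sum, Complex.re_sum]
  have h2 : (J : ℝ) ^ 2 * ∑ i ∈ s, ‖⟪e, y i⟫_ℂ‖ ^ 2 ≤
      ∑ j ∈ range J, ∑ l ∈ range J, ∑ i ∈ s, (⟪(U ^ j) (y i), (U ^ l) (y i)⟫_ℂ).re := by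
    rw [Finset.mul_sum]
    refine (Finset.sum_le_sum h1).trans (le_of_eq ?_)
    rw [Finset.sum_comm]
    refine Finset.sum_congr rfl fun j _ => ?_
    rw [Finset.sum_comm]
  -- the off-diagonal terms
  have hoff : ∀ j l : ℕ, j < l → l < J →
      ∑ i ∈ s, (⟪(U ^ j) (y i), (U ^ l) (y i)⟫_ℂ).re < κ ∧
      ∑ i ∈ s, (⟪(U ^ l) (y i), (U ^ j) (y i)⟫_ℂ).re < κ := by
    intro j l hjl hl
    have h3 := hcon (l - j) (by omega) (by omega)
    have h4 : ∀ i, ⟪(U ^ j) (y i), (U ^ l) (y i)⟫_ℂ = ⟪y i, (U ^ (l - j)) (y i)⟫_ℂ := by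
      intro i
      have h5 : (U ^ l) (y i) = (U ^ j) ((U ^ (l - j)) (y i)) := by
        have : U ^ l = U ^ j * U ^ (l - j) := by rw [← pow_add]; congr 1; omega
        rw [this]; rfl
      rw [h5, uni_pow_inner hU]
    constructor
    · simp only [h4]; exact h3
    · have h5 : ∀ i, (⟪(U ^ l) (y i), (U ^ j) (y i)⟫_ℂ).re = (⟪y i, (U ^ (l - j)) (y i)⟫_ℂ).re := by
        intro i
        rw [← inner_conj_symm, h4 i, Complex.conj_re]
      simp only [h5]; exact h3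
  have hdiag : ∀ j : ℕ, ∑ i ∈ s, (⟪(U ^ j) (y i), (U ^ j) (y i)⟫_ℂ).re ≤ s.card := by
    intro j
    have h3 : ∀ i ∈ s, (⟪(U ^ j) (y i), (U ^ j) (y i)⟫_ℂ).re ≤ 1 := by
      intro i hi
      rw [uni_pow_inner hU, inner_self_eq_norm_sq_to_K]
      have h4 : (((‖y i‖ : ℂ)) ^ 2).re = ‖y i‖ ^ 2 := by norm_cast
      have h5 : ‖y i‖ ^ 2 ≤ 1 := by
        have := pow_le_pow_left₀ (norm_nonneg _) (hy i hi) 2
        simpa using this
      calc _ = ‖y i‖ ^ 2 := h4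
        _ ≤ 1 := h5
    refine (Finset.sum_le_sum h3).trans ?_
    simp
  have h3 : ∑ j ∈ range J, ∑ l ∈ range J, ∑ i ∈ s, (⟪(U ^ j) (y i), (U ^ l) (y i)⟫_ℂ).re <
      ∑ j ∈ range J, ∑ l ∈ range J, (κ + if j = l then (s.card : ℝ) else 0) := by
    have hle : ∀ j ∈ range J, ∀ l ∈ range J,
        ∑ i ∈ s, (⟪(U ^ j) (y i), (U ^ l) (y i)⟫_ℂ).re ≤ κ + if j = l then (s.card : ℝ) else 0 := by
      intro j hj l hl
      rw [Finset.mem_range] at hj hl
      rcases lt_trichotomy j l with h | h | h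
      · rw [if_neg h.ne, add_zero]; exact (hoff j l h hl).1.le
      · subst h
        rw [if_pos rfl]
        linarith [hdiag j]
      · rw [if_neg h.ne', add_zero]; exact (hoff l j h hj).2.le
    refine Finset.sum_lt_sum (fun j hj => Finset.sum_le_sum (hle j hj)) ?_
    refine ⟨0, Finset.mem_range.2 (by omega), ?_⟩
    refine Finset.sum_lt_sum (hle 0 (Finset.mem_range.2 (by omega))) ?_
    refine ⟨1, Finset.mem_range.2 (by omega), ?_⟩
    rw [if_neg (by omega), add_zero]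
    exact (hoff 0 1 (by omega) (by omega)).1
  have h4 : ∑ j ∈ range J, ∑ l ∈ range J, (κ + if j = l then (s.card : ℝ) else 0) =
      (J : ℝ) ^ 2 * (κ + (s.card : ℝ) / J) := by
    have h5 : ∀ j ∈ range J, ∑ l ∈ range J, (κ + if j = l then (s.card : ℝ) else 0) =
        J * κ + s.card := by
      intro j hj
      rw [Finset.sum_add_distrib, Finset.sum_const, Finset.card_range, nsmul_eq_mul,
        Finset.sum_ite_eq, if_pos hj]
    rw [Finset.sum_congr rfl h5, Finset.sum_const, Finset.card_range, nsmul_eq_mul]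
    field_simp
  rw [h4] at h3
  have h5 := lt_of_le_of_lt h2 h3
  have h6 := lt_of_mul_lt_mul_left h5 (by positivity)
  linarith

end

section

variable {r : ℕ} (c : ℕ → Fin r)

theorem spa_small : Spa (fun p => ¬ Big c (c p)) :=
  (spa_Sp c 1 one_pos).mono fun _ hp => Or.inl hp

/-- most integers `≡ 1` modulo `W` have a trivial special part -/
theorem labu_ge : ∃ Q₁ : ℕ, 0 < Q₁ ∧ ∀ W : ℕ, 0 < W → Q₁ ∣ W → ∃ N₀ : ℕ, ∀ N : ℕ, N₀ ≤ N →
    (N : ℝ) / (2 * W) ≤ (labu c W N 1 1).card ∧ ((labu c W N 1 1).card : ℝ) ≤ 2 * (N / W) := by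
  classical
  obtain ⟨Q₁, hQ₁, h1⟩ := cnt (spa_small c) (1 / 4) (by norm_num)
  refine ⟨Q₁, hQ₁, fun W hW hd => ?_⟩
  have hWr : (0 : ℝ) < W := by exact_mod_cast hW
  obtain ⟨N₁, h2⟩ := h1 W hW hd 1 (Nat.coprime_one_left W)
  refine ⟨max N₁ (4 * W), fun N hN => ?_⟩
  have h3 := h2 N ((le_max_left _ _).trans hN)
  have h4 : (4 * W : ℝ) ≤ N := by exact_mod_cast (le_max_right _ _).trans hN
  have h5 : 4 ≤ (N : ℝ) / W := by rw [le_div_iff₀ hWr]; exact h4
  constructor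
  · have h6 := card_class_ge N 1 W hW
    have h7 : ((Ioc 0 N).filter fun k => k ≡ 1 [MOD W]) ⊆ labu c W N 1 1 ∪
        ((Ioc 0 N).filter fun k => k ≡ 1 [MOD W] ∧ ∃ p, p.Prime ∧ ¬ Big c (c p) ∧ p ∣ k) := by
      intro k hk
      rw [mem_filter, mem_Ioc] at hk
      rw [mem_union, mem_filter, mem_Ioc, mem_labu]
      by_cases h8 : ∃ p, p.Prime ∧ ¬ Big c (c p) ∧ p ∣ k
      · exact Or.inr ⟨hk.1, hk.2, h8⟩
      · left
        have h9 : sp c W k = 1 := by
          rw [sp_eq_prt]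
          refine prt_one _ hk.1.1 fun p hp hE hpk => ?_
          rcases hE with hE | hE
          · exact h8 ⟨p, hp, hE, hpk⟩
          · have h10 : k ≡ 1 [MOD p] := hk.2.of_dvd hE
            have h11 : p ∣ 1 := (Nat.modEq_zero_iff_dvd).1
              (h10.symm.trans ((Nat.modEq_zero_iff_dvd).2 hpk))
            exact hp.one_lt.ne' (Nat.dvd_one.1 h11)
        refine ⟨hk.1, h9, ?_⟩
        have h10 := res_eq c W hk.1.1
        rw [h9, Nat.cast_one, one_mul] at h10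
        apply Units.ext
        rw [← h10, Units.val_one]
        have h11 := (ZMod.natCast_eq_natCast_iff _ _ _).2 hk.2
        rw [h11, Nat.cast_one]
    have h8 : (((Ioc 0 N).filter fun k => k ≡ 1 [MOD W]).card : ℝ) ≤ (labu c W N 1 1).card +
        (((Ioc 0 N).filter fun k => k ≡ 1 [MOD W] ∧
          ∃ p, p.Prime ∧ ¬ Big c (c p) ∧ p ∣ k).card : ℝ) := by
      have := (Finset.card_le_card h7).trans (Finset.card_union_le _ _)
      exact_mod_cast this
    have h9 : (N : ℝ) / (2 * W) = (N / W) / 2 := by ring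
    have h10 : (1 / 4 : ℝ) * N / W = (N / W) / 4 := by ring
    rw [h10] at h3
    rw [h9]
    linarith
  · have h6 := card_class_le N 1 W
    have h7 : labu c W N 1 1 ⊆ (Ioc 0 N).filter fun k => k ≡ 1 [MOD W] := by
      intro k hk
      rw [mem_labu] at hk
      rw [mem_filter, mem_Ioc]
      refine ⟨hk.1, ?_⟩
      have h10 := res_eq c W hk.1.1
      rw [hk.2.1, hk.2.2] at h10
      refine (ZMod.natCast_eq_natCast_iff _ _ _).1 ?_
      rw [h10]; simp
    have h8 : ((labu c W N 1 1).card : ℝ) ≤ (((Ioc 0 N).filter fun k => k ≡ 1 [MOD W]).card : ℝ) := by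
      exact_mod_cast Finset.card_le_card h7
    linarith

theorem gam_pow (W : ℕ) {n : ℕ} (hn : 0 < n) (k : ℕ) : gam c W (n ^ k) = k • gam c W n := by
  induction k with
  | zero => rw [pow_zero, gam_one, zero_smul]
  | succ k ih => rw [pow_succ, gam_mul c W (pow_pos hn k) hn, ih, succ_nsmul]

theorem sp_pow (W : ℕ) {n : ℕ} (hn : 0 < n) (k : ℕ) : sp c W (n ^ k) = sp c W n ^ k := by
  induction k with
  | zero => rw [pow_zero, pow_zero, sp_one]
  | succ k ih => rw [pow_succ, sp_mul c W (pow_pos hn k) hn, ih, pow_succ]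

/-- the labels `(s₀, 0)` have positive densities -/
theorem lab_pos {W : ℕ} (hW : 0 < W)
    (hlow : ∃ N₀ : ℕ, ∀ N : ℕ, N₀ ≤ N → (N : ℝ) / (2 * W) ≤ (labu c W N 1 1).card) {s₀ : ℕ}
    (hs₀ : 0 < s₀) (hsp : sp c W s₀ = s₀) :
    ∃ d : ℝ, 0 < d ∧ Tendsto (fun N : ℕ => ((lab c W N s₀ 0).card : ℝ) / N) atTop (𝓝 d) := by
  classical
  have : NeZero W := ⟨hW.ne'⟩
  have : NeZero (Nat.totient W) := ⟨(Nat.totient_pos.2 hW).ne'⟩
  have hWr : (0 : ℝ) < W := by exact_mod_cast hW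
  -- some label has a positive density
  obtain ⟨g, dg, hdg, hg⟩ : ∃ (g : GG r W) (dg : ℝ), 0 < dg ∧
      Tendsto (fun N : ℕ => ((lab c W N 1 g).card : ℝ) / N) atTop (𝓝 dg) := by
    by_contra hcon
    push Not at hcon
    choose D hD using fun g : GG r W => lab_dens c W 1 g
    have hD0 : ∀ g, D g = 0 := by
      intro g
      have h1 : 0 ≤ D g := ge_of_tendsto' (hD g) fun N => by positivity
      rcases h1.eq_or_lt with h2 | h2
      · exact h2.symm
      · exact absurd (hD g) (hcon g (D g) h2)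
    have h1 : Tendsto (fun N : ℕ => ∑ g : GG r W, ((lab c W N 1 g).card : ℝ) / N) atTop
        (𝓝 (∑ g : GG r W, D g)) := tendsto_finsetSum _ fun g _ => hD g
    simp only [hD0, Finset.sum_const_zero] at h1
    obtain ⟨N₀, hN₀⟩ := hlow
    have h2 := h1.eventually (gt_mem_nhds (show (0 : ℝ) < 1 / (2 * W) by positivity))
    obtain ⟨N, h3, h4⟩ := (h2.and (eventually_ge_atTop (N₀ + 1))).exists
    have hN : (0 : ℝ) < N := by exact_mod_cast (by omega : 0 < N)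
    have h5 := hN₀ N (by omega)
    have h6 : labu c W N 1 1 ⊆ (Finset.univ : Finset (GG r W)).biUnion fun g => lab c W N 1 g := by
      intro n hn
      rw [mem_labu] at hn
      rw [mem_biUnion]
      exact ⟨gam c W n, Finset.mem_univ _, (mem_lab c W).2 ⟨hn.1, hn.2.1, rfl⟩⟩
    have h7 : ((labu c W N 1 1).card : ℝ) ≤ ∑ g : GG r W, ((lab c W N 1 g).card : ℝ) := by
      have := (Finset.card_le_card h6).trans Finset.card_biUnion_le
      exact_mod_cast this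
    have h8 : ∑ g : GG r W, ((lab c W N 1 g).card : ℝ) / N =
        (∑ g : GG r W, ((lab c W N 1 g).card : ℝ)) / N := by rw [Finset.sum_div]
    rw [h8, div_lt_iff₀ hN] at h3
    have h9 : (N : ℝ) / (2 * W) = 1 / (2 * W) * N := by ring
    rw [h9] at h5
    linarith
  -- an element of the label
  obtain ⟨n₀, hn₀, hn₀1, hn₀g⟩ : ∃ n₀ : ℕ, 0 < n₀ ∧ sp c W n₀ = 1 ∧ gam c W n₀ = g := by
    have h1 := hg.eventually (lt_mem_nhds hdg)
    obtain ⟨N, hN⟩ := h1.exists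
    have h2 : (lab c W N 1 g).Nonempty := by
      rw [Finset.nonempty_iff_ne_empty]
      intro h3
      rw [h3, Finset.card_empty] at hN
      simp at hN
    obtain ⟨n, hn⟩ := h2
    rw [mem_lab] at hn
    exact ⟨n, hn.1.1, hn.2.1, hn.2.2⟩
  set e := Nat.totient W with he
  have he0 : 0 < e := Nat.totient_pos.2 hW
  set k := s₀ * n₀ ^ (e - 1) with hk
  have hk0 : 0 < k := Nat.mul_pos hs₀ (pow_pos hn₀ _)
  have hksp : sp c W k = s₀ := by
    rw [hk, sp_mul c W hs₀ (pow_pos hn₀ _), sp_pow c W hn₀, hn₀1, one_pow, mul_one, hsp]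
  have hkg : gam c W k + g = 0 := by
    have h1 : gam c W s₀ = 0 := by rw [← hsp]; exact gam_sp c W hs₀
    rw [hk, gam_mul c W hs₀ (pow_pos hn₀ _), h1, zero_add, gam_pow c W hn₀, hn₀g, ← succ_nsmul]
    have h2 : e - 1 + 1 = e := by omega
    rw [h2]
    exact GG_kill W hW g
  have hcard : ∀ N : ℕ, (lab c W N 1 g).card ≤ (lab c W (k * N) s₀ 0).card := by
    intro N
    refine Finset.card_le_card_of_injOn (fun n => k * n) (fun n hn => ?_) (fun a _ b _ hab => ?_)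
    · rw [Finset.mem_coe, mem_lab] at hn
      rw [Finset.mem_coe, mem_lab]
      refine ⟨⟨Nat.mul_pos hk0 hn.1.1, Nat.mul_le_mul_left k hn.1.2⟩, ?_, ?_⟩
      · rw [sp_mul c W hk0 hn.1.1, hksp, hn.2.1, mul_one]
      · rw [gam_mul c W hk0 hn.1.1, hn.2.2, hkg]
    · exact Nat.eq_of_mul_eq_mul_left hk0 hab
  obtain ⟨d, hd⟩ := lab_dens c W s₀ 0
  refine ⟨d, ?_, hd⟩
  have hkr : (0 : ℝ) < k := by exact_mod_cast hk0
  have hsub : Tendsto (fun N : ℕ => k * N) atTop atTop :=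
    tendsto_id.const_mul_atTop' hk0
  have h1 := hd.comp hsub
  have h2 : Tendsto (fun N : ℕ => ((lab c W N 1 g).card : ℝ) / N * (1 / k)) atTop (𝓝 (dg * (1 / k))) :=
    hg.mul_const _
  have h3 : dg * (1 / k) ≤ d := by
    refine le_of_tendsto_of_tendsto' h2 h1 fun N => ?_
    simp only [Function.comp_apply]
    have h4 : ((lab c W N 1 g).card : ℝ) ≤ ((lab c W (k * N) s₀ 0).card : ℝ) := by
      exact_mod_cast hcard N
    push_cast
    rw [div_mul_div_comm, mul_one, mul_comm (N : ℝ) k]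
    exact div_le_div_of_nonneg_right h4 (by positivity)
  have h4 : 0 < dg * (1 / k) := by positivity
  linarith

end

end Pool.Agent.Helper31.MA2
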